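import Pool.Agent.T6.H30.RV.Adm
set_option autoImplicit false

/-!
Integral covers of the affine space.
-/

namespace Pool.Agent.T6.H30.RV

open MvPolynomial

variable {K : Type*} [Field K] {c n : ℕ}

theorem Sys.sub_mono (S : Sys K c n) {Z Z' : Set (Fin c ⊕ Fin (n + 1))} (h : Z ⊆ Z') :
    S.sub Z ≤ S.sub Z' :=
  Subring.closure_mono (Set.union_subset_union_right _ fun _ ⟨t, ht, e⟩ => ⟨t, h ht, e⟩)

theorem Sys.X_mem_sub (S : Sys K c n) {Z : Set (Fin c ⊕ Fin (n + 1))} {t : Fin c ⊕ Fin (n + 1)}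
    (h : t ∈ Z) : S.res (X t) ∈ S.sub Z :=
  Subring.subset_closure (Or.inr ⟨t, h, rfl⟩)

/-- polynomials with integral coefficients in the variables in `Z` -/
theorem Sys.res_mem_sub (S : Sys K c n) {Z : Set (Fin c ⊕ Fin (n + 1))}
    {p : MvPolynomial (Fin c ⊕ Fin (n + 1)) K} (hp : ∀ m, IsIntegral ℤ (p.coeff m))
    (hZ : ∀ t ∈ p.vars, t ∈ Z) : S.res p ∈ S.sub Z := by
  classical
  rw [p.as_sum, map_sum]
  refine Subring.sum_mem _ fun m hm => ?_
  rw [monomial_eq, map_mul, Finsupp.prod, map_prod]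
  refine Subring.mul_mem _ (Subring.subset_closure (Or.inl ⟨_, hp m, rfl⟩))
    (Subring.prod_mem _ fun t ht => ?_)
  rw [map_pow]
  exact Subring.pow_mem _ (S.X_mem_sub (hZ t ((mem_vars_iff_mem_support t).2 ⟨m, hm, ht⟩))) _

theorem IntOver.of_mem {A : Type*} [CommRing A] {R : Subring A} {a : A} (h : a ∈ R) :
    IntOver R a :=
  isIntegral_algebraMap (R := R) (x := ⟨a, h⟩)

theorem IntOver.mono {A : Type*} [CommRing A] {R R' : Subring A} (hR : R ≤ R') {a : A}
    (h : IntOver R a) : IntOver R' a :=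
  h.map_of_comp_eq (Subring.inclusion hR) (RingHom.id _) (RingHom.ext fun r => rfl)

/-- Integral covers `W` of the affine space with the coordinates `x_0, ..., x_n`, given by the
variables `y_l` that are integral over the polynomials in `x_0, ..., x_n` with integral
coefficients, and the functions `h_{j,i} = x_j - φ_{j,i}(x_{j+1}, ..., x_n)` for arbitrary
polynomials `φ_{j,i}` with integral coefficients, are admissible. By the Noether normalization every
affine variety is such a cover, up to multiples of the coordinates. -/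
theorem adm_of_cover (S : Sys K c n) (hlev : S.lev = Sum.elim (fun _ => 0) id)
    (φ : (j : Fin (n + 1)) → Fin (S.r j + 1) → MvPolynomial (Fin c ⊕ Fin (n + 1)) K)
    (hφ : ∀ j i m, IsIntegral ℤ ((φ j i).coeff m))
    (hφv : ∀ j i, ∀ t ∈ (φ j i).vars, ∃ j', j < j' ∧ t = Sum.inr j')
    (hh : ∀ j i, S.h j i = X (Sum.inr j) - φ j i) (hg : ∀ m, IsIntegral ℤ (S.g.coeff m))
    (hy : ∀ l, IntOver (S.sub (Set.range Sum.inr)) (S.res (X (Sum.inl l)))) : S.Adm := by
  have hφm : ∀ j i, S.res (φ j i) ∈ S.low j := by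
    intro j i
    refine S.res_mem_sub (hφ j i) fun t ht => ?_
    obtain ⟨j', h1, rfl⟩ := hφv j i t ht
    rw [Set.mem_ofPred_eq, hlev]
    exact h1
  have hX : ∀ j, S.res (X (Sum.inr j)) ∈ adj (S.low j) (S.res (S.h j 0)) := by
    intro j
    have e : S.res (X (Sum.inr j)) = S.res (S.h j 0) + S.res (φ j 0) := by
      rw [hh, map_sub, sub_add_cancel]
    rw [e]
    exact Subring.add_mem _ (le_sup_right (a := S.low j) (Subring.subset_closure rfl))
      (le_sup_left (b := Subring.closure {S.res (S.h j 0)}) (hφm j 0))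
  refine ⟨fun j i => ?_, ?_, ?_, fun j i => ?_⟩
  · refine IntOver.of_mem ?_
    rw [hh, map_sub]
    exact Subring.sub_mem _ (S.X_mem_sub (Set.mem_univ _))
      (S.sub_mono (Set.subset_univ _) (hφm j i))
  · exact IntOver.of_mem (S.res_mem_sub hg fun t _ => Set.mem_univ t)
  · rintro (l | j)
    · have e0 : S.lev (Sum.inl l) = 0 := by rw [hlev]; rfl
      rw [e0]
      refine (hy l).mono (Subring.closure_le.2 ?_)
      rintro a (⟨x, hx, rfl⟩ | ⟨_, ⟨j, rfl⟩, rfl⟩)
      · exact le_sup_left (b := Subring.closure {S.res (S.h 0 0)})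
          (Subring.subset_closure (Or.inl ⟨x, hx, rfl⟩) : S.res (C x) ∈ S.low 0)
      · by_cases hj : j = 0
        · rw [hj]
          exact hX 0
        · refine le_sup_left (b := Subring.closure {S.res (S.h 0 0)})
            (S.X_mem_sub ?_ : S.res (X (Sum.inr j)) ∈ S.low 0)
          rw [Set.mem_ofPred_eq, hlev]
          exact Fin.pos_iff_ne_zero.2 hj
    · have e0 : S.lev (Sum.inr j) = j := by rw [hlev]; rfl
      rw [e0]
      exact IntOver.of_mem (hX j)
  · have hm : S.res (S.h j i) - S.res (S.h j 0) ∈ S.low j := by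
      have e : S.res (S.h j i) - S.res (S.h j 0) = S.res (φ j 0) - S.res (φ j i) := by
        rw [hh, hh, map_sub, map_sub]
        ring
      rw [e]
      exact Subring.sub_mem _ (hφm j 0) (hφm j i)
    refine ⟨1, one_ne_zero, 1, fun _ => -(S.res (S.h j i) - S.res (S.h j 0)), fun l => ?_, ?_⟩
    · refine ⟨Polynomial.C (-(S.res (S.h j i) - S.res (S.h j 0))), fun m => ?_, ?_, ?_⟩
      · rw [Polynomial.coeff_C]
        split_ifs
        · exact Subring.neg_mem _ hm
        · exact Subring.zero_mem _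
      · rw [Polynomial.natDegree_C]
        exact Nat.zero_le _
      · rw [Polynomial.eval_C]
    · simp

end Pool.Agent.T6.H30.RV
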