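import Pool.Agent.T6.H30.RV.Def
import Pool.Agent.TH826.MK.Variety
set_option autoImplicit false

/-!
Admissible functions: towers of relative functions with the same behaviour at infinity.
-/

namespace Pool.Agent.T6.H30.RV

open scoped WithZero

open MvPolynomial

open Pool.Agent.TH826.MK

variable {K : Type*} [Field K] {c n s : ℕ}

/-- The coordinate ring of `W`. -/
def Sys.Fun (S : Sys K c n) : Type _ :=
  MvPolynomial (Fin c ⊕ Fin (n + 1)) K ⧸ Ideal.span (Set.range S.G)

noncomputable instance (S : Sys K c n) : CommRing S.Fun :=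
  Ideal.Quotient.commRing (Ideal.span (Set.range S.G))

/-- the function on `W` given by a polynomial -/
noncomputable def Sys.res (S : Sys K c n) : MvPolynomial (Fin c ⊕ Fin (n + 1)) K →+* S.Fun :=
  Ideal.Quotient.mk _

/-- The subring of the coordinate ring of `W` generated by the algebraic integers of `K` and by the
variables in `Z`. -/
noncomputable def Sys.sub (S : Sys K c n) (Z : Set (Fin c ⊕ Fin (n + 1))) : Subring S.Fun :=
  Subring.closure ({a | ∃ x : K, IsIntegral ℤ x ∧ S.res (C x) = a} ∪ {a | ∃ t ∈ Z, S.res (X t) = a})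

/-- The subring `R_j` generated by the algebraic integers of `K` and by the variables of levels
`> j`. -/
noncomputable def Sys.low (S : Sys K c n) (j : Fin (n + 1)) : Subring S.Fun :=
  S.sub {t | j < S.lev t}

/-- `a` is integral over the subring `R`. -/
def IntOver {A : Type*} [CommRing A] (R : Subring A) (a : A) : Prop := IsIntegral R a

/-- the subring `R[h]` -/
def adj {A : Type*} [CommRing A] (R : Subring A) (h : A) : Subring A := R ⊔ Subring.closure {h}

/-- `a` is the value at `h` of a polynomial over `R` of degree at most `l`. -/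
def DegLE {A : Type*} [CommRing A] (R : Subring A) (h : A) (l : ℕ) (a : A) : Prop :=
  ∃ p : Polynomial A, (∀ i, p.coeff i ∈ R) ∧ p.natDegree ≤ l ∧ p.eval h = a

/-- `d` is of smaller order than `h` over `R`: it satisfies an equation
`d ^ N + c_0 d ^ (N - 1) + ... + c_{N-1} = 0`, where `c_l` is the value at `h` of a polynomial over
`R` of degree at most `l`. -/
def Below {A : Type*} [CommRing A] (R : Subring A) (h d : A) : Prop :=
  ∃ (N : ℕ) (c : Fin N → A), (∀ l : Fin N, DegLE R h (l : ℕ) (c l)) ∧
    d ^ N + ∑ l : Fin N, c l * d ^ (N - 1 - (l : ℕ)) = 0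

/-- The functions `h_{j,i}` and `g` are admissible: they are integral over the subring `R` of the
coordinate ring of `W` that is generated by the algebraic integers of `K` and all variables; and if
`R_j` is the subring generated by the algebraic integers of `K` and the variables of levels `> j`,
then the variables of level `j` are integral over `R_j[h_{j,0}]`, and for some `N > 0` the function
`h_{j,i} ^ N - h_{j,0} ^ N` is of smaller order than `h_{j,0} ^ N` over `R_j`. -/
structure Sys.Adm (S : Sys K c n) : Prop where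
  h_int : ∀ j i, IntOver (S.sub Set.univ) (S.res (S.h j i))
  g_int : IntOver (S.sub Set.univ) (S.res S.g)
  var_int : ∀ t, IntOver (adj (S.low (S.lev t)) (S.res (S.h (S.lev t) 0))) (S.res (X t))
  below : ∀ j i, ∃ N : ℕ, N ≠ 0 ∧
    Below (S.low j) (S.res (S.h j 0 ^ N)) (S.res (S.h j i ^ N - S.h j 0 ^ N))

section val

variable {A L : Type*} [CommRing A] [Field L] (F : A →+* L) (v : Valuation L ℤᵐ⁰)

theorem val_of_isIntegral {R : Type*} [CommRing R] [Algebra R A]
    (hR : ∀ r : R, v (F (algebraMap R A r)) ≤ 1) {a : A} (ha : IsIntegral R a) : v (F a) ≤ 1 := by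
  let φ : R →+* v.integer := (F.comp (algebraMap R A)).codRestrict v.integer hR
  have h : IsIntegral v.integer (F a) :=
    ha.map_of_comp_eq φ F (RingHom.ext fun r => rfl)
  exact (Valuation.integer.integers v).mem_of_integral h

theorem val_adjoin {R : Subring A} (hR : ∀ r ∈ R, v (F r) ≤ 1) {h : A} (hh : v (F h) ≤ 1) {a : A}
    (ha : IntOver (adj R h) a) : v (F a) ≤ 1 := by
  refine val_of_isIntegral F v (fun r => ?_) ha
  have h1 : adj R h ≤ v.integer.comap F := by
    refine sup_le (fun x hx => hR x hx) (Subring.closure_le.2 ?_)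
    rintro x hx
    rw [Set.mem_singleton_iff.1 hx]
    exact hh
  exact h1 r.2

theorem val_below {R : Subring A} (hR : ∀ r ∈ R, v (F r) ≤ 1) {h d : A} (hh : 1 < v (F h))
    (H : Below R h d) : v (F d) < v (F h) := by
  obtain ⟨N, c, hc, he⟩ := H
  by_contra hcon
  push Not at hcon
  have hd : 1 < v (F d) := hh.trans_le hcon
  have hd0 : v (F d) ≠ 0 := (zero_lt_one.trans hd).ne'
  have h1 : ∀ l, v (F (c l)) ≤ v (F h) ^ (l : ℕ) := by
    intro l
    obtain ⟨p, hp, hpl, hpe⟩ := hc l
    rw [← hpe, Polynomial.eval_eq_sum_range, map_sum]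
    refine Valuation.map_sum_le v fun i hi => ?_
    rw [map_mul, map_pow, map_mul, map_pow]
    calc v (F (p.coeff i)) * v (F h) ^ i ≤ 1 * v (F h) ^ i :=
          mul_le_mul' (hR _ (hp i)) le_rfl
      _ = v (F h) ^ i := one_mul _
      _ ≤ v (F h) ^ (l : ℕ) := pow_le_pow_right₀ hh.le
          ((Nat.lt_succ_iff.1 (Finset.mem_range.1 hi)).trans hpl)
  have h3 := congrArg F he
  rw [map_add, map_zero, map_pow, map_sum, add_eq_zero_iff_eq_neg] at h3
  have h4 := congrArg v h3
  rw [Valuation.map_neg, map_pow] at h4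
  have h5 : v (∑ l : Fin N, F (c l * d ^ (N - 1 - (l : ℕ)))) < v (F d) ^ N := by
    refine Valuation.map_sum_lt v (pow_ne_zero _ hd0) fun l _ => ?_
    rw [map_mul, map_mul, map_pow, map_pow]
    calc v (F (c l)) * v (F d) ^ (N - 1 - (l : ℕ))
        ≤ v (F d) ^ (l : ℕ) * v (F d) ^ (N - 1 - (l : ℕ)) :=
          mul_le_mul' ((h1 l).trans (pow_le_pow_left₀ zero_le hcon _)) le_rfl
      _ = v (F d) ^ (N - 1) := by
          rw [← pow_add]
          congr 1
          have := l.2
          omega
      _ < v (F d) ^ N := pow_lt_pow_right₀ hd (by have := l.2; omega)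
  rw [h4] at h5
  exact lt_irrefl _ h5

end val

section tower

variable {L : Type*} [Field L] (S : Sys K c n) (F : S.Fun →+* L) (v : Valuation L ℤᵐ⁰)

theorem val_sub {Z : Set (Fin c ⊕ Fin (n + 1))} (hZ : ∀ t ∈ Z, v (F (S.res (X t))) ≤ 1) :
    ∀ a ∈ S.sub Z, v (F a) ≤ 1 := by
  have h1 : S.sub Z ≤ v.integer.comap F := by
    refine Subring.closure_le.2 ?_
    rintro a (⟨x, hx, rfl⟩ | ⟨t, ht, rfl⟩)
    · have h2 : v ((F.comp (S.res.comp C)) x) ≤ 1 :=
        val_le_one_of_integral v (map_isIntegral_int _ hx)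
      exact h2
    · exact hZ t ht
  exact fun a ha => h1 ha

variable {S}

/-- Either all functions are integral, or there is a level `j` such that all the `h_{j,i}` have a
pole and have up to roots of unity the same leading coefficient. -/
theorem Sys.Adm.cases (hS : S.Adm) :
    ((∀ j i, v (F (S.res (S.h j i))) ≤ 1) ∧ v (F (S.res S.g)) ≤ 1) ∨
      ∃ j, 1 < v (F (S.res (S.h j 0))) ∧ ∀ i, ∃ N : ℕ, N ≠ 0 ∧
        v ((F (S.res (S.h j i)) / F (S.res (S.h j 0))) ^ N - 1) < 1 := by
  classical
  by_cases hB : ∃ t, 1 < v (F (S.res (X t)))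
  · right
    have hne : (Finset.univ.filter fun j : Fin (n + 1) =>
        ∃ t, S.lev t = j ∧ 1 < v (F (S.res (X t)))).Nonempty := by
      obtain ⟨t, ht⟩ := hB
      exact ⟨S.lev t, Finset.mem_filter.2 ⟨Finset.mem_univ _, t, rfl, ht⟩⟩
    set j := (Finset.univ.filter fun j : Fin (n + 1) =>
        ∃ t, S.lev t = j ∧ 1 < v (F (S.res (X t)))).max' hne with hjdef
    obtain ⟨t, htj, ht⟩ := (Finset.mem_filter.1 (Finset.max'_mem _ hne)).2
    rw [← hjdef] at htj
    have hlt : ∀ t' ∈ {t | j < S.lev t}, v (F (S.res (X t'))) ≤ 1 := by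
      intro t' ht'
      by_contra hcon
      refine absurd (Finset.le_max' _ (S.lev t') (Finset.mem_filter.2 ⟨Finset.mem_univ _, t', rfl,
        ?_⟩)) (not_le.2 ht')
      exact not_le.1 hcon
    have hR : ∀ a ∈ S.low j, v (F a) ≤ 1 := val_sub S F v hlt
    have hj : 1 < v (F (S.res (S.h j 0))) := by
      by_contra hcon
      push Not at hcon
      have h1 := hS.var_int t
      rw [htj] at h1
      exact absurd (val_adjoin F v hR hcon h1) (not_le.2 ht)
    refine ⟨j, hj, fun i => ?_⟩
    obtain ⟨N, hN, hb⟩ := hS.below j i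
    refine ⟨N, hN, ?_⟩
    have h2 : 1 < v (F (S.res (S.h j 0 ^ N))) := by
      rw [map_pow, map_pow, map_pow]
      exact one_lt_pow₀ hj hN
    have h3 := val_below F v hR h2 hb
    have h4 : F (S.res (S.h j 0)) ≠ 0 := by
      intro h0
      rw [h0, map_zero] at hj
      exact absurd hj (not_lt.2 zero_le_one)
    have h5 : (F (S.res (S.h j i)) / F (S.res (S.h j 0))) ^ N - 1 =
        F (S.res (S.h j i ^ N - S.h j 0 ^ N)) / F (S.res (S.h j 0 ^ N)) := by
      rw [map_sub, map_sub, map_pow, map_pow, map_pow, map_pow, div_pow, sub_div,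
        div_self (pow_ne_zero _ h4)]
    rw [h5, map_div₀, div_lt_one₀ (zero_lt_one.trans h2)]
    exact h3
  · left
    push Not at hB
    have hR := val_sub S F v (Z := Set.univ) fun t _ => hB t
    exact ⟨fun j i => val_of_isIntegral F v (fun r => hR _ r.2) (hS.h_int j i),
      val_of_isIntegral F v (fun r => hR _ r.2) hS.g_int⟩

end tower

end Pool.Agent.T6.H30.RV
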