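import Pool.Agent.T6.H30.RV.Comp
set_option autoImplicit false

/-!
The asymptotic behaviour of the regulator integrals on the small tori.
-/

namespace Pool.Agent.T6.H30.RV

open MeasureTheory Set Filter Topology

open Pool.Agent.TH826.MK

section circles

variable {d : ℕ}

theorem good_circ {R : ℝ} (hR : 0 < R) (m : ℕ) (l : Fin d) :
    Good fun θ : Fin d → ℝ => circ R (m * θ l) := (one_circ hR m).good l

theorem norm_lw_circ {R : ℝ} (hR : 0 < R) (m : ℕ) (l j : Fin d) (θ : Fin d → ℝ) :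
    ‖lw (fun θ : Fin d → ℝ => circ R (m * θ l)) j θ‖ ≤ 2 * Real.pi * m := by
  have h := lw_vf (one_circ hR m).smooth l j θ
  rw [h, norm_mul, ld_circ hR m]
  have h1 : ‖(2 * Real.pi * Complex.I * m : ℂ)‖ = 2 * Real.pi * m := by
    rw [norm_mul, norm_mul, norm_mul, Complex.norm_I, mul_one, Complex.norm_real,
      Real.norm_eq_abs, abs_of_pos Real.pi_pos]
    simp
  rw [h1]
  have h2 : ‖(((Pi.single j (1 : ℝ) : Fin d → ℝ) l : ℝ) : ℂ)‖ ≤ 1 := by
    by_cases hjl : l = j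
    · subst hjl; simp
    · rw [Pi.single_eq_of_ne hjl]; simp
  calc _ ≤ 1 * (2 * Real.pi * m) := mul_le_mul_of_nonneg_right h2 (by positivity)
    _ = _ := one_mul _

theorem good_one : Good fun _ : Fin d → ℝ => (1 : ℂ) := good_const one_ne_zero

theorem lw_one (j : Fin d) (θ : Fin d → ℝ) : lw (fun _ => (1 : ℂ)) j θ = 0 := by
  unfold lw
  simp

end circles

section main

variable {s n : ℕ}

/-- the basic map to the local coordinates, before scaling -/
noncomputable def zone (χ : (Fin (s + n) → ℝ) → ℂ) (m : ℕ) :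
    (Fin (s + n) → ℝ) → (Fin (n + 1) → ℂ) :=
  fun θ => Fin.cons (χ θ) fun a => circ 1 (m * θ (Fin.natAdd s a))

/-- the local coordinates on the torus: `ζ_0 = τ χ`, `|ζ_j| = δ` for `j > 0` -/
noncomputable def zz (χ : (Fin (s + n) → ℝ) → ℂ) (m : ℕ) (δ : ℝ) (τ : ℂ) :
    (Fin (s + n) → ℝ) → (Fin (n + 1) → ℂ) :=
  scl (Fin.cons τ fun _ => (δ : ℂ)) (zone χ m)

variable {χ : (Fin (s + n) → ℝ) → ℂ} {m : ℕ} {δ : ℝ} {τ : ℂ}

theorem zz_zero (θ : Fin (s + n) → ℝ) : zz χ m δ τ θ 0 = τ * χ θ := rfl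

theorem circ_mul_one (R t : ℝ) : (R : ℂ) * circ 1 t = circ R t := by
  unfold circ
  simp

theorem zz_succ (θ : Fin (s + n) → ℝ) (a : Fin n) :
    zz χ m δ τ θ a.succ = circ δ (m * θ (Fin.natAdd s a)) := circ_mul_one _ _

theorem contDiff_zone (hχ : Good χ) : ContDiff ℝ 2 (zone χ m) := by
  refine contDiff_pi.2 fun j => ?_
  refine Fin.cases ?_ (fun a => ?_) j
  · exact hχ.smooth
  · exact (good_circ one_pos m (Fin.natAdd s a)).smooth

theorem contDiff_zz (hχ : Good χ) : ContDiff ℝ 2 (zz χ m δ τ) := contDiff_scl (contDiff_zone hχ)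

theorem norm_scale_le (hδ : 0 ≤ δ) : ‖(Fin.cons τ fun _ => (δ : ℂ) : Fin (n + 1) → ℂ)‖ ≤
    max ‖τ‖ δ := by
  refine (pi_norm_le_iff_of_nonneg (le_max_of_le_right hδ)).2 fun j => ?_
  refine Fin.cases ?_ (fun a => ?_) j
  · exact le_max_left _ _
  · rw [Fin.cons_succ, Complex.norm_real, Real.norm_eq_abs, abs_of_nonneg hδ]
    exact le_max_right _ _

/-- the first entry -/
noncomputable def fst (χ : (Fin (s + n) → ℝ) → ℂ) (m : ℕ) (δ : ℝ) (τ : ℂ)
    (W : (Fin (n + 1) → ℂ) → ℂ) (b : Prop) [Decidable b] : (Fin (s + n) → ℝ) → ℂ :=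
  fun θ => (if b then zz χ m δ τ θ 0 else 1) * W (zz χ m δ τ θ)

/-- the monomial parts of the other entries -/
noncomputable def mon (s n : ℕ) (m : ℕ) (ρ δ : ℝ) (b : Fin n → Prop) [DecidablePred b] :
    Fin (s + n) → (Fin (s + n) → ℝ) → ℂ :=
  Fin.append (fun l θ => circ ρ (m * θ (Fin.castAdd n l)))
    (fun a θ => if b a then circ δ (m * θ (Fin.natAdd s a)) else 1)

/-- the other parts of the other entries -/
noncomputable def oth (χ : (Fin (s + n) → ℝ) → ℂ) (m : ℕ) (δ : ℝ) (τ : ℂ)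
    (W : Fin n → (Fin (n + 1) → ℂ) → ℂ) : Fin (s + n) → (Fin (s + n) → ℝ) → ℂ :=
  Fin.append (fun _ _ => 1) (fun a θ => W a (zz χ m δ τ θ))

theorem mon_cases {P : ((Fin (s + n) → ℝ) → ℂ) → Prop} {ρ δ : ℝ} {b : Fin n → Prop}
    [DecidablePred b] (h1 : P fun _ => 1) (h2 : ∀ l, P fun θ => circ ρ (m * θ l))
    (h3 : ∀ l, P fun θ => circ δ (m * θ l)) (l : Fin (s + n)) : P (mon s n m ρ δ b l) := by
  unfold mon
  refine Fin.addCases (fun l => ?_) (fun a => ?_) l
  · rw [Fin.append_left]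
    exact h2 _
  · rw [Fin.append_right]
    by_cases hb : b a
    · simp only [if_pos hb]; exact h3 _
    · simp only [if_neg hb]; exact h1

theorem oth_cases {P : ((Fin (s + n) → ℝ) → ℂ) → Prop} {W : Fin n → (Fin (n + 1) → ℂ) → ℂ}
    (h1 : P fun _ => 1) (h2 : ∀ a, P fun θ => W a (zz χ m δ τ θ)) (l : Fin (s + n)) :
    P (oth χ m δ τ W l) := by
  unfold oth
  refine Fin.addCases (fun l => ?_) (fun a => ?_) l
  · rw [Fin.append_left]
    exact h1
  · rw [Fin.append_right]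
    exact h2 a

theorem jint_mon {ρ δ : ℝ} (hρ : 0 < ρ) (hδ : 0 < δ) (b : Fin n → Prop) [DecidablePred b] :
    jint (mon s n m ρ δ b) = if ∀ a, b a then (2 * Real.pi * m) ^ (s + n) else 0 := by
  split_ifs with h
  · have e : mon s n m ρ δ b = vf (Fin.append (fun (_ : Fin s) (t : ℝ) => circ ρ (m * t))
        (fun (_ : Fin n) (t : ℝ) => circ δ (m * t))) := by
      funext l
      unfold mon vf
      refine Fin.addCases (fun l => ?_) (fun a => ?_) l
      · rw [Fin.append_left, Fin.append_left]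
      · rw [Fin.append_right, Fin.append_right]
        simp only [if_pos (h a)]
    rw [e, jint_vf (w := fun _ => (m : ℝ))]
    · rw [Finset.prod_const, Finset.card_univ, Fintype.card_fin, mul_pow (2 * Real.pi)]
    · intro l
      refine Fin.addCases (fun l => ?_) (fun a => ?_) l
      · rw [Fin.append_left]
        exact one_circ hρ m
      · rw [Fin.append_right]
        exact one_circ hδ m
  · push Not at h
    obtain ⟨a, ha⟩ := h
    refine jint_eq_zero (l := Fin.natAdd s a) (c := 1) ?_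
    unfold mon
    rw [Fin.append_right]
    simp only [if_neg ha]

/-- The regulator integrals on the tori with `ζ_0 = τ χ`, `|ζ_j| = δ`. -/
theorem pair_asymp {α : Fin (n + 1) → Type*} [∀ j, Finite (α j)] [∀ j, DecidableEq (α j)]
    (W : ∀ j, α j → (Fin (n + 1) → ℂ) → ℂ)
    (hW : ∀ j k, ContDiffAt ℂ 2 (W j k) 0 ∧ W j k 0 ≠ 0) (T : ∀ j, α j) (m : ℕ) {ρ : ℝ}
    (hρ : 0 < ρ) (hχ : Good χ) (hχb : ∃ D, ∀ θ, ‖χ θ‖ ≤ D) {η : ℝ} (hη : 0 < η) :
    ∃ δ0 : ℝ, 0 < δ0 ∧ ∀ δ : ℝ, 0 < δ → δ ≤ δ0 → ∃ τ0 C : ℝ, 0 < τ0 ∧ 0 ≤ C ∧ ∀ τ : ℂ, τ ≠ 0 →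
      ‖τ‖ ≤ τ0 → ∀ k : ∀ j, α j,
        |pairing (Fin.cons (fst χ m δ τ (W 0 (k 0)) (k 0 = T 0)) fun l θ =>
            mon s n m ρ δ (fun a => k a.succ = T a.succ) l θ *
              oth χ m δ τ (fun a => W a.succ (k a.succ)) l θ) -
          (if k = T then Real.log ‖τ‖ * (2 * Real.pi * m) ^ (s + n) else 0)| ≤
        η * |Real.log ‖τ‖| + C := by
  obtain ⟨C, hC0, hC⟩ := exists_nice_all (α := Σ j, α j) (U := fun a => W a.1 a.2)
    (fun a => hW a.1 a.2)
  obtain ⟨r, hr0, hr⟩ := Metric.eventually_nhds_iff.1 hC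
  simp only [dist_zero_right] at hr
  obtain ⟨D, hD⟩ := hχb
  -- bounds for the basic map
  set D0 : ℝ := |D| + 1 with hD0
  have hD00 : 0 < D0 := by positivity
  have hz0 : ∀ θ, ‖zone χ m θ‖ ≤ D0 := by
    intro θ
    refine (pi_norm_le_iff_of_nonneg hD00.le).2 fun j => ?_
    refine Fin.cases ?_ (fun a => ?_) j
    · exact ((hD θ).trans (le_abs_self _)).trans (by rw [hD0]; linarith)
    · show ‖circ 1 _‖ ≤ D0
      rw [norm_circ zero_le_one, hD0]
      linarith [abs_nonneg D]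
  have hzc : Continuous fun θ => fun i : Fin (s + n) => fderiv ℝ (zone χ m) θ (Pi.single i 1) := by
    refine continuous_pi fun i => ?_
    have h1 := (contDiff_zone (m := m) hχ).continuous_fderiv (by norm_num)
    exact h1.clm_apply continuous_const
  obtain ⟨D1, hD10, hD1⟩ := bdd_box hzc
  -- bounds for χ
  have hlχ : Continuous fun θ => Real.log ‖χ θ‖ :=
    hχ.smooth.continuous.norm.log fun θ => norm_ne_zero_iff.2 (hχ.ne_zero θ)
  obtain ⟨D2, hD20, hD2⟩ := bdd_box hlχ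
  have hlwχ : Continuous fun θ => fun i : Fin (s + n) => lw χ i θ := by
    refine continuous_pi fun i => ?_
    unfold lw
    have h1 := hχ.smooth.continuous_fderiv (by norm_num)
    exact (h1.clm_apply continuous_const).div hχ.smooth.continuous hχ.ne_zero
  obtain ⟨D3, hD30, hD3⟩ := bdd_box hlwχ
  -- the constant of the determinant
  obtain ⟨ε, hε, hj⟩ := jint_mul (s + n) (4 * Real.pi * m) η hη
  -- the choice of the size
  set δ0 : ℝ := min (r / (2 * D0)) (min (ε / (2 * C * D1 + 1)) 1) with hδ0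
  have hq : 0 < 2 * C * D1 + 1 := by positivity
  have hδ00 : 0 < δ0 := lt_min (by positivity) (lt_min (by positivity) one_pos)
  refine ⟨δ0, hδ00, fun δ hδ hδle => ?_⟩
  -- a bound for all entries
  set B : ℝ := |Real.log ρ| + |Real.log δ| + D2 + 2 * D3 + 4 * Real.pi * m + C +
    2 * (C * D1) with hB
  have hB0 : 0 ≤ B := by positivity
  refine ⟨δ0, ((s + n + 1).factorial : ℝ) * (B * ∏ _l : Fin (s + n), B), hδ00, by positivity, ?_⟩
  intro τ hτ hτle k
  set a : Fin (n + 1) → ℂ := Fin.cons τ fun _ => (δ : ℂ) with ha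
  have hsc : ‖a‖ ≤ δ0 := (norm_scale_le hδ.le).trans (max_le hτle hδle)
  have hsc1 : ‖a‖ ≤ 1 := hsc.trans ((min_le_right _ _).trans (min_le_right _ _))
  have hzr : ∀ θ, ‖zz χ m δ τ θ‖ < r := by
    intro θ
    have h1 : ‖zz χ m δ τ θ‖ ≤ ‖a‖ * ‖zone χ m θ‖ := norm_scl_le _ _ θ
    have h2 : ‖a‖ * ‖zone χ m θ‖ ≤ r / (2 * D0) * D0 :=
      mul_le_mul (hsc.trans (min_le_left _ _)) (hz0 θ) (norm_nonneg _) (by positivity)
    have h3 : r / (2 * D0) * D0 = r / 2 := by field_simp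
    rw [h3] at h2
    linarith
  have hnice : ∀ θ j (x : α j), Nice C (W j x) (zz χ m δ τ θ) := fun θ j x => hr (hzr θ) ⟨j, x⟩
  have hfd : ∀ θ ∈ Icc (0 : Fin (s + n) → ℝ) 1, ∀ i : Fin (s + n),
      ‖fderiv ℝ (zz χ m δ τ) θ (Pi.single i 1)‖ ≤ ‖a‖ * D1 := by
    intro θ hθ i
    refine (norm_fderiv_scl_le (contDiff_zone hχ) θ _).trans ?_
    refine mul_le_mul_of_nonneg_left ?_ (norm_nonneg _)
    exact (norm_le_pi_norm (fun i : Fin (s + n) => fderiv ℝ (zone χ m) θ (Pi.single i 1)) i).trans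
      (hD1 θ hθ)
  have hgood : ∀ j (x : α j), Good fun θ => W j x (zz χ m δ τ θ) := fun j x =>
    good_comp (contDiff_zz hχ) (fun θ => (hnice θ j x).smooth) fun θ => (hnice θ j x).ne_zero
  have hlw : ∀ θ ∈ Icc (0 : Fin (s + n) → ℝ) 1, ∀ j (x : α j) i,
      ‖lw (fun θ => W j x (zz χ m δ τ θ)) i θ‖ ≤ C * (‖a‖ * D1) := by
    intro θ hθ j x i
    exact (lw_comp_le (contDiff_zz hχ) (hnice θ j x) i).trans
      (mul_le_mul_of_nonneg_left (hfd θ hθ i) hC0)
  have hlw1 : C * (‖a‖ * D1) ≤ C * D1 := by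
    refine mul_le_mul_of_nonneg_left ?_ hC0
    calc ‖a‖ * D1 ≤ 1 * D1 := mul_le_mul_of_nonneg_right hsc1 hD10
      _ = D1 := one_mul _
  have hlwε : 2 * (C * (‖a‖ * D1)) ≤ ε := by
    have h1 : ‖a‖ ≤ ε / (2 * C * D1 + 1) := hsc.trans ((min_le_right _ _).trans (min_le_left _ _))
    have h2 : 2 * (C * (‖a‖ * D1)) = (2 * C * D1) * ‖a‖ := by ring
    rw [h2]
    calc (2 * C * D1) * ‖a‖ ≤ (2 * C * D1 + 1) * (ε / (2 * C * D1 + 1)) :=
          mul_le_mul (by linarith) h1 (norm_nonneg _) hq.le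
      _ = ε := by field_simp
  -- the entries
  set b : Fin n → Prop := fun a => k a.succ = T a.succ with hb
  set M := mon s n m ρ δ b with hM
  set V := oth χ m δ τ (fun a => W a.succ (k a.succ)) with hV
  have hMg : ∀ l, Good (M l) := fun l =>
    mon_cases (P := Good) good_one (fun l => good_circ hρ m l) (fun l => good_circ hδ m l) l
  have hVg : ∀ l, Good (V l) := fun l =>
    oth_cases (P := Good) good_one (fun a => hgood _ _) l
  have hMlw : ∀ l j, ∀ θ ∈ Icc (0 : Fin (s + n) → ℝ) 1, 2 * ‖lw (M l) j θ‖ ≤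
      4 * Real.pi * m := by
    intro l j θ _
    refine mon_cases (P := fun g => 2 * ‖lw g j θ‖ ≤ 4 * Real.pi * m) ?_ (fun l => ?_)
      (fun l => ?_) l
    · rw [lw_one, norm_zero, mul_zero]; positivity
    · have := norm_lw_circ hρ m l j θ; linarith
    · have := norm_lw_circ hδ m l j θ; linarith
  have hVlw : ∀ l j, ∀ θ ∈ Icc (0 : Fin (s + n) → ℝ) 1, 2 * ‖lw (V l) j θ‖ ≤
      2 * (C * (‖a‖ * D1)) := by
    intro l j θ hθ
    refine oth_cases (P := fun g => 2 * ‖lw g j θ‖ ≤ 2 * (C * (‖a‖ * D1))) ?_ (fun a => ?_) l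
    · rw [lw_one, norm_zero, mul_zero]; positivity
    · have := hlw θ hθ a.succ (k a.succ) j; linarith
  have hMlog : ∀ l θ, |Real.log ‖M l θ‖| ≤ |Real.log ρ| + |Real.log δ| := by
    intro l θ
    refine mon_cases (P := fun g => |Real.log ‖g θ‖| ≤ |Real.log ρ| + |Real.log δ|) ?_
      (fun l => ?_) (fun l => ?_) l
    · simp only [norm_one, Real.log_one, abs_zero]; positivity
    · rw [norm_circ hρ.le]; linarith [abs_nonneg (Real.log δ)]
    · rw [norm_circ hδ.le]; linarith [abs_nonneg (Real.log ρ)]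
  have hVlog : ∀ l θ, |Real.log ‖V l θ‖| ≤ C := by
    intro l θ
    refine oth_cases (P := fun g => |Real.log ‖g θ‖| ≤ C) ?_ (fun a => ?_) l
    · simp only [norm_one, Real.log_one, abs_zero]; exact hC0
    · exact (hnice θ _ _).log_le
  have hg : ∀ l, Good fun θ => M l θ * V l θ := fun l => (hMg l).mul (hVg l)
  have hpi := Real.pi_pos
  have hgrow : ∀ l, ∀ y ∈ Icc (0 : Fin (s + n + 1) → ℝ) 1, ∀ j,
      ‖grow (fun θ => M l θ * V l θ) y j‖ ≤ B := by
    intro l y hy j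
    refine norm_grow_le hy ?_ (fun j => ?_) j
    · rw [norm_mul, Real.log_mul (norm_ne_zero_iff.2 ((hMg l).ne_zero _))
        (norm_ne_zero_iff.2 ((hVg l).ne_zero _))]
      refine (abs_add_le _ _).trans ((add_le_add (hMlog l _) (hVlog l _)).trans ?_)
      rw [hB]
      nlinarith [mul_nonneg hC0 hD10, mul_nonneg hpi.le (Nat.cast_nonneg (α := ℝ) m)]
    · rw [lw_mul (hMg l) (hVg l)]
      have h1 := norm_add_le (lw (M l) j (tl (s + n) y)) (lw (V l) j (tl (s + n) y))
      have h2 := hMlw l j _ (tl_mem hy)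
      have h3 := hVlw l j _ (tl_mem hy)
      rw [hB]
      have := abs_nonneg (Real.log ρ)
      have := abs_nonneg (Real.log δ)
      linarith
  -- the part without `τ`
  have hrest : ∀ f : (Fin (s + n) → ℝ) → ℂ,
      (f = (fun θ => χ θ * W 0 (k 0) (zz χ m δ τ θ)) ∨ f = fun θ => W 0 (k 0) (zz χ m δ τ θ)) →
      |pairing (Fin.cons f fun l θ => M l θ * V l θ)| ≤
        ((s + n + 1).factorial : ℝ) * (B * ∏ _l : Fin (s + n), B) := by
    intro f hf
    refine abs_pairing_le (fun y hy j => ?_) hgrow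
    have hW0 := hgood 0 (k 0)
    rcases hf with rfl | rfl
    · refine norm_grow_le hy ?_ (fun j => ?_) j
      · rw [norm_mul, Real.log_mul (norm_ne_zero_iff.2 (hχ.ne_zero _))
          (norm_ne_zero_iff.2 (hW0.ne_zero _))]
        refine (abs_add_le _ _).trans ((add_le_add (hD2 _ (tl_mem hy))
          (hnice _ _ _).log_le).trans ?_)
        rw [hB]
        have := abs_nonneg (Real.log ρ)
        have := abs_nonneg (Real.log δ)
        nlinarith [mul_nonneg hC0 hD10, mul_nonneg hpi.le (Nat.cast_nonneg (α := ℝ) m)]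
      · rw [lw_mul hχ hW0]
        have h1 := norm_add_le (lw χ j (tl (s + n) y))
          (lw (fun θ => W 0 (k 0) (zz χ m δ τ θ)) j (tl (s + n) y))
        have h2 := (norm_le_pi_norm (fun i : Fin (s + n) => lw χ i (tl (s + n) y)) j).trans
          (hD3 _ (tl_mem hy))
        have h3 := hlw _ (tl_mem hy) 0 (k 0) j
        rw [hB]
        have := abs_nonneg (Real.log ρ)
        have := abs_nonneg (Real.log δ)
        nlinarith [mul_nonneg hpi.le (Nat.cast_nonneg (α := ℝ) m)]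
    · refine norm_grow_le hy ?_ (fun j => ?_) j
      · refine (hnice _ _ _).log_le.trans ?_
        rw [hB]
        have := abs_nonneg (Real.log ρ)
        have := abs_nonneg (Real.log δ)
        nlinarith [mul_nonneg hC0 hD10, mul_nonneg hpi.le (Nat.cast_nonneg (α := ℝ) m)]
      · have h3 := hlw _ (tl_mem hy) 0 (k 0) j
        rw [hB]
        have := abs_nonneg (Real.log ρ)
        have := abs_nonneg (Real.log δ)
        nlinarith [mul_nonneg hpi.le (Nat.cast_nonneg (α := ℝ) m)]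
  have hjj := hj M V hMg hVg hMlw (fun l j θ hθ => (hVlw l j θ hθ).trans hlwε)
  rw [hM, jint_mon hρ hδ, ← hM] at hjj
  by_cases h0 : k 0 = T 0
  · have e1 : fst χ m δ τ (W 0 (k 0)) (k 0 = T 0) =
        fun θ => (fun _ => τ) θ * (fun θ => χ θ * W 0 (k 0) (zz χ m δ τ θ)) θ := by
      funext θ
      unfold fst
      rw [if_pos h0, zz_zero, mul_assoc]
    rw [e1, pairing_cons_mul (good_const hτ) (hχ.mul (hgood 0 (k 0))) hg, pairing_const_eq]
    have h1 := hrest _ (Or.inl rfl)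
    have h2 : (if k = T then Real.log ‖τ‖ * (2 * Real.pi * m) ^ (s + n) else 0) =
        Real.log ‖τ‖ * (if ∀ a, b a then (2 * Real.pi * m) ^ (s + n) else 0) := by
      by_cases h : ∀ a, b a
      · rw [if_pos h, if_pos]
        funext j
        refine Fin.cases h0 (fun a => h a) j
      · rw [if_neg h, if_neg, mul_zero]
        intro hk
        exact h fun a => congrFun hk a.succ
    rw [h2]
    have h3 : ∀ x y z w : ℝ, x * y + z - x * w = x * (y - w) + z := fun x y z w => by ring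
    rw [h3]
    refine (abs_add_le _ _).trans (add_le_add ?_ h1)
    rw [abs_mul, mul_comm]
    exact mul_le_mul_of_nonneg_right hjj (abs_nonneg _)
  · have e1 : fst χ m δ τ (W 0 (k 0)) (k 0 = T 0) =
        fun θ => W 0 (k 0) (zz χ m δ τ θ) := by
      funext θ
      unfold fst
      rw [if_neg h0, one_mul]
    rw [e1, if_neg (fun hk => h0 (congrFun hk 0)), sub_zero]
    refine (hrest _ (Or.inr rfl)).trans ?_
    have : 0 ≤ η * |Real.log ‖τ‖| := by positivity
    linarith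

end main

end Pool.Agent.T6.H30.RV
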