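import Pool.Agent.T6.H30.RV.Asym
set_option autoImplicit false

/-!
The roots used to solve the equation of the variety on the tori.
-/

namespace Pool.Agent.T6.H30.RV

open MeasureTheory Set Filter Topology

open Pool.Agent.TH826.MK

theorem circ_ne_zero {R : ℝ} (hR : 0 < R) (t : ℝ) : circ R t ≠ 0 := by
  have h := norm_circ hR.le t
  intro h0
  rw [h0, norm_zero] at h
  exact hR.ne h

theorem circ_add_nat (R t : ℝ) (k : ℕ) : circ R (t + k) = circ R t := by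
  induction k generalizing t with
  | zero => simp
  | succ k ih => rw [Nat.cast_succ, ← add_assoc, circ_add_one, ih]

theorem circ_pow (t : ℝ) (m : ℕ) : circ 1 t ^ m = circ 1 (m * t) := by
  unfold circ
  rw [Complex.ofReal_one, one_mul, one_mul, ← Complex.exp_nat_mul]
  congr 1
  push_cast
  ring

theorem circ_mul_per (R : ℝ) (m : ℕ) (t : ℝ) : circ R (m * (t + 1)) = circ R (m * t) := by
  rw [mul_add, mul_one, circ_add_nat]

theorem per_coord {α : Type*} {d : ℕ} {f : ℝ → α} (hf : ∀ t, f (t + 1) = f t) (θ : Fin d → ℝ)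
    (i j : Fin d) : f ((θ + Pi.single i (1 : ℝ) : Fin d → ℝ) j) = f (θ j) := by
  rw [Pi.add_apply]
  by_cases h : j = i
  · subst h
    rw [Pi.single_eq_same, hf]
  · rw [Pi.single_eq_of_ne h, add_zero]

/-- the function `1 + κ / z + 1 / z ^ 2` on the circle -/
noncomputable def vfac (κ : ℂ) (ρ : ℝ) (m : ℕ) (t : ℝ) : ℂ :=
  1 + (κ / circ ρ (m * t) + 1 / circ ρ (m * t) ^ 2)

/-- its `m`-th root -/
noncomputable def rt (κ : ℂ) (ρ : ℝ) (m : ℕ) (t : ℝ) : ℂ :=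
  Complex.exp (Complex.log (vfac κ ρ m t) / m)

variable {κ : ℂ} {ρ : ℝ} {m : ℕ}

theorem norm_vfac_sub (h : 4 * ‖κ‖ + 2 ≤ ρ) (t : ℝ) :
    ‖κ / circ ρ (m * t) + 1 / circ ρ (m * t) ^ 2‖ ≤ 1 / 2 := by
  have h0 : 0 ≤ ‖κ‖ := norm_nonneg _
  have hρ : 0 < ρ := by linarith
  refine (norm_add_le _ _).trans ?_
  rw [norm_div, norm_div, norm_pow, norm_circ hρ.le, norm_one]
  have h1 : ‖κ‖ / ρ ≤ 1 / 4 := by
    rw [div_le_iff₀ hρ]
    linarith
  have h2 : 1 / ρ ^ 2 ≤ 1 / 4 := by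
    rw [div_le_div_iff₀ (by positivity) (by norm_num)]
    nlinarith
  linarith

theorem vfac_slit (h : 4 * ‖κ‖ + 2 ≤ ρ) (t : ℝ) : vfac κ ρ m t ∈ Complex.slitPlane :=
  Complex.mem_slitPlane_of_norm_lt_one ((norm_vfac_sub h t).trans_lt (by norm_num))

theorem vfac_ne_zero (h : 4 * ‖κ‖ + 2 ≤ ρ) (t : ℝ) : vfac κ ρ m t ≠ 0 :=
  Complex.slitPlane_ne_zero (vfac_slit h t)

theorem norm_vfac_le (h : 4 * ‖κ‖ + 2 ≤ ρ) (t : ℝ) : ‖vfac κ ρ m t‖ ≤ 2 := by
  unfold vfac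
  refine (norm_add_le _ _).trans ?_
  have := norm_vfac_sub (m := m) h t
  rw [norm_one]
  linarith

theorem rt_pow (h : 4 * ‖κ‖ + 2 ≤ ρ) (hm : m ≠ 0) (t : ℝ) : rt κ ρ m t ^ m = vfac κ ρ m t := by
  unfold rt
  rw [← Complex.exp_nat_mul, mul_div_cancel₀ _ (Nat.cast_ne_zero.2 hm),
    Complex.exp_log (vfac_ne_zero h t)]

theorem norm_rt_le (h : 4 * ‖κ‖ + 2 ≤ ρ) (hm : m ≠ 0) (t : ℝ) : ‖rt κ ρ m t‖ ≤ 2 := by
  by_contra hc
  push Not at hc
  have h1 : ‖rt κ ρ m t‖ ≤ ‖rt κ ρ m t‖ ^ m := le_self_pow₀ (by linarith) hm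
  rw [← norm_pow, rt_pow h hm] at h1
  linarith [norm_vfac_le (m := m) h t]

theorem contDiff_rt (h : 4 * ‖κ‖ + 2 ≤ ρ) : ContDiff ℝ 2 (rt κ ρ m) := by
  have h0 : 0 ≤ ‖κ‖ := norm_nonneg _
  have hρ : 0 < ρ := by linarith
  have h1 : ContDiff ℝ 2 fun t : ℝ => circ ρ (m * t) :=
    (contDiff_circ ρ).comp (contDiff_const.mul contDiff_id)
  have h2 : ∀ t : ℝ, circ ρ (m * t) ≠ 0 := fun t => circ_ne_zero hρ _
  have h3 : ContDiff ℝ 2 (vfac κ ρ m) := by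
    have e : vfac κ ρ m = fun t : ℝ => 1 + (κ * (circ ρ (m * t))⁻¹ +
        (circ ρ (m * t))⁻¹ ^ 2) := by
      funext t
      unfold vfac
      rw [div_eq_mul_inv, div_eq_mul_inv, one_mul, inv_pow]
    rw [e]
    have h3 := h1.inv h2
    exact contDiff_const.add ((contDiff_const.mul h3).add (h3.pow 2))
  have h4 : ContDiff ℝ 2 fun t => Complex.log (vfac κ ρ m t) := by
    rw [contDiff_iff_contDiffAt]
    intro t
    have h5 : ContDiffAt ℝ 2 Complex.log (vfac κ ρ m t) :=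
      (Complex.contDiffAt_log (vfac_slit h t)).restrict_scalars ℝ
    exact ContDiffAt.comp (g := Complex.log) t h5 h3.contDiffAt
  unfold rt
  exact (h4.div_const _).cexp

theorem vfac_per (t : ℝ) : vfac κ ρ m (t + 1) = vfac κ ρ m t := by
  unfold vfac
  rw [circ_mul_per]

theorem rt_per (t : ℝ) : rt κ ρ m (t + 1) = rt κ ρ m t := by
  unfold rt
  rw [vfac_per]

section chi

variable {s n : ℕ}

/-- The function `χ`: its `m`-th power solves the equation of the variety on the torus. -/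
noncomputable def chi (κ : Fin s → ℂ) (ρ : ℝ) (m : ℕ) (q : Fin n → ℕ) :
    (Fin (s + n) → ℝ) → ℂ := fun θ =>
  (∏ l, circ 1 (θ (Fin.castAdd n l)) * rt (κ l) ρ m (θ (Fin.castAdd n l))) *
    ∏ a, (circ 1 (θ (Fin.natAdd s a)))⁻¹ ^ q a

variable {κ : Fin s → ℂ} {q : Fin n → ℕ}

theorem good_chi (h : ∀ l, 4 * ‖κ l‖ + 2 ≤ ρ) : Good (chi κ ρ m q) where
  smooth := by
    refine (contDiff_prod fun l _ => ?_).mul (contDiff_prod fun a _ => ?_)
    · exact ((contDiff_circ 1).comp (contDiff_apply ℝ ℝ _)).mul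
        ((contDiff_rt (h l)).comp (contDiff_apply ℝ ℝ _))
    · refine ContDiff.pow (ContDiff.inv ?_ fun θ => circ_ne_zero one_pos _) _
      exact (contDiff_circ 1).comp (contDiff_apply ℝ ℝ _)
  ne_zero θ := by
    refine mul_ne_zero (Finset.prod_ne_zero_iff.2 fun l _ => ?_)
      (Finset.prod_ne_zero_iff.2 fun a _ => ?_)
    · exact mul_ne_zero (circ_ne_zero one_pos _) (Complex.exp_ne_zero _)
    · exact pow_ne_zero _ (inv_ne_zero (circ_ne_zero one_pos _))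

theorem norm_chi_le (h : ∀ l, 4 * ‖κ l‖ + 2 ≤ ρ) (hm : m ≠ 0) (θ : Fin (s + n) → ℝ) :
    ‖chi κ ρ m q θ‖ ≤ 2 ^ s := by
  unfold chi
  rw [norm_mul, norm_prod, norm_prod]
  have h1 : ∏ a, ‖(circ 1 (θ (Fin.natAdd s a)))⁻¹ ^ q a‖ = 1 := by
    refine Finset.prod_eq_one fun a _ => ?_
    rw [norm_pow, norm_inv, norm_circ zero_le_one, inv_one, one_pow]
  rw [h1, mul_one]
  calc ∏ l : Fin s, ‖circ 1 (θ (Fin.castAdd n l)) * rt (κ l) ρ m (θ (Fin.castAdd n l))‖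
      ≤ ∏ _l : Fin s, (2 : ℝ) := by
        refine Finset.prod_le_prod (fun _ _ => norm_nonneg _) fun l _ => ?_
        rw [norm_mul, norm_circ zero_le_one, one_mul]
        exact norm_rt_le (h l) hm _
    _ = 2 ^ s := by rw [Finset.prod_const, Finset.card_univ, Fintype.card_fin]

theorem chi_per (θ : Fin (s + n) → ℝ) (i : Fin (s + n)) :
    chi κ ρ m q (θ + Pi.single i 1) = chi κ ρ m q θ := by
  unfold chi
  congr 1
  · refine Finset.prod_congr rfl fun l _ => ?_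
    rw [per_coord (f := circ 1) (circ_add_one 1), per_coord (f := rt (κ l) ρ m) rt_per]
  · refine Finset.prod_congr rfl fun a _ => ?_
    rw [per_coord (f := circ 1) (circ_add_one 1)]

theorem chi_pow (h : ∀ l, 4 * ‖κ l‖ + 2 ≤ ρ) (hm : m ≠ 0) (θ : Fin (s + n) → ℝ) :
    chi κ ρ m q θ ^ m * ∏ a, circ 1 (m * θ (Fin.natAdd s a)) ^ q a =
      ∏ l, circ 1 (m * θ (Fin.castAdd n l)) * vfac (κ l) ρ m (θ (Fin.castAdd n l)) := by
  unfold chi
  rw [mul_pow, ← Finset.prod_pow, ← Finset.prod_pow, mul_assoc, ← Finset.prod_mul_distrib]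
  have h1 : ∏ a, (((circ 1 (θ (Fin.natAdd s a)))⁻¹ ^ q a) ^ m *
      circ 1 (m * θ (Fin.natAdd s a)) ^ q a) = 1 := by
    refine Finset.prod_eq_one fun a _ => ?_
    rw [← circ_pow, ← pow_mul, ← pow_mul, mul_comm m, ← mul_pow,
      inv_mul_cancel₀ (circ_ne_zero one_pos _), one_pow]
  rw [h1, mul_one]
  refine Finset.prod_congr rfl fun l _ => ?_
  rw [mul_pow, circ_pow, rt_pow (h l) hm]

/-- The equation of the variety on the torus. -/
theorem chi_eq (h : ∀ l, 4 * ‖κ l‖ + 2 ≤ ρ) (hm : m ≠ 0) {lam τ : ℂ} {δ : ℝ}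
    (hρ : 0 < ρ)
    (hτ : lam * (τ ^ m * (δ : ℂ) ^ ∑ a, q a) = (ρ : ℂ) ^ s) (θ : Fin (s + n) → ℝ) :
    ∏ l, (circ ρ (m * θ (Fin.castAdd n l)) ^ 2 + κ l * circ ρ (m * θ (Fin.castAdd n l)) + 1) =
      lam * ((zz (chi κ ρ m q) m δ τ θ 0) ^ m *
        ∏ a : Fin n, (zz (chi κ ρ m q) m δ τ θ a.succ) ^ q a) *
        ∏ l, circ ρ (m * θ (Fin.castAdd n l)) := by
  have h1 : ∀ l, circ ρ (m * θ (Fin.castAdd n l)) ^ 2 + κ l * circ ρ (m * θ (Fin.castAdd n l)) + 1 =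
      circ ρ (m * θ (Fin.castAdd n l)) * (circ ρ (m * θ (Fin.castAdd n l)) *
        vfac (κ l) ρ m (θ (Fin.castAdd n l))) := by
    intro l
    unfold vfac
    have := circ_ne_zero hρ (m * θ (Fin.castAdd n l))
    field_simp
    ring
  rw [Finset.prod_congr rfl fun l _ => h1 l, Finset.prod_mul_distrib, mul_comm]
  congr 1
  have h2 : ∏ l, circ ρ (m * θ (Fin.castAdd n l)) * vfac (κ l) ρ m (θ (Fin.castAdd n l)) =
      (ρ : ℂ) ^ s * ∏ l, circ 1 (m * θ (Fin.castAdd n l)) *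
        vfac (κ l) ρ m (θ (Fin.castAdd n l)) := by
    have h3 : ∀ l : Fin s, circ ρ (m * θ (Fin.castAdd n l)) *
        vfac (κ l) ρ m (θ (Fin.castAdd n l)) = (ρ : ℂ) * (circ 1 (m * θ (Fin.castAdd n l)) *
        vfac (κ l) ρ m (θ (Fin.castAdd n l))) := by
      intro l
      rw [← circ_mul_one ρ, mul_assoc]
    rw [Finset.prod_congr rfl fun l _ => h3 l, Finset.prod_mul_distrib, Finset.prod_const,
      Finset.card_univ, Fintype.card_fin]
  rw [h2, ← chi_pow h hm, ← hτ, zz_zero, mul_pow]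
  have h4 : ∏ a : Fin n, zz (chi κ ρ m q) m δ τ θ a.succ ^ q a =
      (δ : ℂ) ^ (∑ a, q a) * ∏ a, circ 1 (m * θ (Fin.natAdd s a)) ^ q a := by
    rw [← Finset.prod_pow_eq_pow_sum, ← Finset.prod_mul_distrib]
    refine Finset.prod_congr rfl fun a _ => ?_
    rw [zz_succ, ← circ_mul_one δ, mul_pow]
  rw [h4]
  ring

end chi

end Pool.Agent.T6.H30.RV
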