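import Pool.Agent.T6.H30.RV.Est
set_option autoImplicit false

/-!
Nonvanishing smooth functions of the local coordinates on small tori.
-/

namespace Pool.Agent.T6.H30.RV

open MeasureTheory Set Filter Topology

open Pool.Agent.TH826.MK

variable {d : ℕ} {N : ℕ}

/-- `U` is smooth and does not vanish at `ζ`, with bounds for its logarithm. -/
structure Nice (C : ℝ) (U : (Fin N → ℂ) → ℂ) (ζ : Fin N → ℂ) : Prop where
  smooth : ContDiffAt ℂ 2 U ζ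
  ne_zero : U ζ ≠ 0
  log_le : |Real.log ‖U ζ‖| ≤ C
  der_le : ‖fderiv ℂ U ζ‖ ≤ C * ‖U ζ‖

theorem Nice.mono {C C' : ℝ} {U : (Fin N → ℂ) → ℂ} {ζ : Fin N → ℂ} (h : Nice C U ζ)
    (hC : C ≤ C') : Nice C' U ζ :=
  ⟨h.smooth, h.ne_zero, h.log_le.trans hC,
    h.der_le.trans (mul_le_mul_of_nonneg_right hC (norm_nonneg _))⟩

theorem exists_nice {U : (Fin N → ℂ) → ℂ} (h : ContDiffAt ℂ 2 U 0) (h0 : U 0 ≠ 0) :
    ∃ C : ℝ, 0 ≤ C ∧ ∀ᶠ ζ in 𝓝 (0 : Fin N → ℂ), Nice C U ζ := by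
  have h1 : ∀ᶠ ζ in 𝓝 (0 : Fin N → ℂ), ContDiffAt ℂ 2 U ζ := h.eventually (by decide)
  have h2 : ∀ᶠ ζ in 𝓝 (0 : Fin N → ℂ), U ζ ≠ 0 := h.continuousAt.eventually_ne h0
  have h3 : ContinuousAt (fun ζ => |Real.log ‖U ζ‖|) 0 :=
    (h.continuousAt.norm.log (norm_ne_zero_iff.2 h0)).abs
  have h4 : ContinuousAt (fun ζ => ‖fderiv ℂ U ζ‖ / ‖U ζ‖) 0 := by
    refine ContinuousAt.div ?_ h.continuousAt.norm (norm_ne_zero_iff.2 h0)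
    exact (h.fderiv_right (m := 1) (by norm_num)).continuousAt.norm
  set C : ℝ := |Real.log ‖U 0‖| + ‖fderiv ℂ U 0‖ / ‖U 0‖ + 1 with hC
  have hA : 0 ≤ |Real.log ‖U 0‖| := abs_nonneg _
  have hB : 0 ≤ ‖fderiv ℂ U 0‖ / ‖U 0‖ := by positivity
  refine ⟨C, by positivity, ?_⟩
  have h5 : ∀ᶠ ζ in 𝓝 (0 : Fin N → ℂ), |Real.log ‖U ζ‖| < C :=
    h3.eventually_lt_const (by rw [hC]; linarith)
  have h6 : ∀ᶠ ζ in 𝓝 (0 : Fin N → ℂ), ‖fderiv ℂ U ζ‖ / ‖U ζ‖ < C :=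
    h4.eventually_lt_const (by rw [hC]; linarith)
  filter_upwards [h1, h2, h5, h6] with ζ e1 e2 e3 e4
  refine ⟨e1, e2, e3.le, ?_⟩
  have h7 : 0 < ‖U ζ‖ := norm_pos_iff.2 e2
  rw [div_lt_iff₀ h7] at e4
  exact e4.le

/-- finitely many functions at the same time -/
theorem exists_nice_all {α : Type*} [Finite α] {U : α → (Fin N → ℂ) → ℂ}
    (h : ∀ a, ContDiffAt ℂ 2 (U a) 0 ∧ U a 0 ≠ 0) :
    ∃ C : ℝ, 0 ≤ C ∧ ∀ᶠ ζ in 𝓝 (0 : Fin N → ℂ), ∀ a, Nice C (U a) ζ := by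
  classical
  haveI := Fintype.ofFinite α
  choose C hC0 hC using fun a => exists_nice (h a).1 (h a).2
  refine ⟨∑ a, C a, Finset.sum_nonneg fun a _ => hC0 a, ?_⟩
  rw [eventually_all]
  intro a
  filter_upwards [hC a] with ζ hζ
  exact hζ.mono (Finset.single_le_sum (f := C) (fun a _ => hC0 a) (Finset.mem_univ a))

/-- the composite with a smooth map -/
theorem good_comp {U : (Fin N → ℂ) → ℂ} {Z : (Fin d → ℝ) → (Fin N → ℂ)} (hZ : ContDiff ℝ 2 Z)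
    (h : ∀ θ, ContDiffAt ℂ 2 U (Z θ)) (h0 : ∀ θ, U (Z θ) ≠ 0) : Good fun θ => U (Z θ) :=
  ⟨contDiff_iff_contDiffAt.2 fun θ =>
    ((h θ).restrict_scalars ℝ).comp θ hZ.contDiffAt, h0⟩

theorem lw_comp_le {U : (Fin N → ℂ) → ℂ} {Z : (Fin d → ℝ) → (Fin N → ℂ)} (hZ : ContDiff ℝ 2 Z)
    {θ : Fin d → ℝ} {C : ℝ} (h : Nice C U (Z θ)) (i : Fin d) :
    ‖lw (fun θ => U (Z θ)) i θ‖ ≤ C * ‖fderiv ℝ Z θ (Pi.single i 1)‖ := by
  have h1 : HasFDerivAt U ((fderiv ℂ U (Z θ)).restrictScalars ℝ) (Z θ) :=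
    ((h.smooth.differentiableAt (by norm_num)).hasFDerivAt).restrictScalars ℝ
  have h2 : HasFDerivAt Z (fderiv ℝ Z θ) θ := (hZ.differentiable (by norm_num) θ).hasFDerivAt
  have h3 := (h1.comp θ h2).fderiv
  unfold lw
  have h4 : fderiv ℝ (fun θ => U (Z θ)) θ (Pi.single i 1) =
      fderiv ℂ U (Z θ) (fderiv ℝ Z θ (Pi.single i 1)) := by
    have h5 : fderiv ℝ (fun θ => U (Z θ)) θ = ((fderiv ℂ U (Z θ)).restrictScalars ℝ).comp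
      (fderiv ℝ Z θ) := h3
    rw [h5]
    rfl
  rw [h4, norm_div]
  have h6 : 0 < ‖U (Z θ)‖ := norm_pos_iff.2 h.ne_zero
  rw [div_le_iff₀ h6]
  calc ‖fderiv ℂ U (Z θ) (fderiv ℝ Z θ (Pi.single i 1))‖
      ≤ ‖fderiv ℂ U (Z θ)‖ * ‖fderiv ℝ Z θ (Pi.single i 1)‖ :=
        ContinuousLinearMap.le_opNorm _ _
    _ ≤ (C * ‖U (Z θ)‖) * ‖fderiv ℝ Z θ (Pi.single i 1)‖ :=
        mul_le_mul_of_nonneg_right h.der_le (norm_nonneg _)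
    _ = _ := by ring

/-- the scaled map -/
def scl (a : Fin N → ℂ) (Z : (Fin d → ℝ) → (Fin N → ℂ)) : (Fin d → ℝ) → (Fin N → ℂ) :=
  fun θ j => a j * Z θ j

theorem contDiff_scl {a : Fin N → ℂ} {Z : (Fin d → ℝ) → (Fin N → ℂ)} (hZ : ContDiff ℝ 2 Z) :
    ContDiff ℝ 2 (scl a Z) :=
  contDiff_pi.2 fun j => contDiff_const.mul (contDiff_pi.1 hZ j)

theorem norm_scl_le (a : Fin N → ℂ) (Z : (Fin d → ℝ) → (Fin N → ℂ)) (θ : Fin d → ℝ) :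
    ‖scl a Z θ‖ ≤ ‖a‖ * ‖Z θ‖ := by
  refine (pi_norm_le_iff_of_nonneg (by positivity)).2 fun j => ?_
  unfold scl
  rw [norm_mul]
  exact mul_le_mul (norm_le_pi_norm a j) (norm_le_pi_norm (Z θ) j) (norm_nonneg _) (norm_nonneg _)

theorem norm_fderiv_scl_le {a : Fin N → ℂ} {Z : (Fin d → ℝ) → (Fin N → ℂ)}
    (hZ : ContDiff ℝ 2 Z) (θ v : Fin d → ℝ) :
    ‖fderiv ℝ (scl a Z) θ v‖ ≤ ‖a‖ * ‖fderiv ℝ Z θ v‖ := by
  have h1 : HasFDerivAt Z (fderiv ℝ Z θ) θ := (hZ.differentiable (by norm_num) θ).hasFDerivAt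
  have h2 : HasFDerivAt (scl a Z) (ContinuousLinearMap.pi fun j =>
      a j • ((ContinuousLinearMap.proj j : (Fin N → ℂ) →L[ℝ] ℂ).comp (fderiv ℝ Z θ))) θ := by
    refine hasFDerivAt_pi.2 fun j => ?_
    have h3 : HasFDerivAt (fun θ => Z θ j)
        ((ContinuousLinearMap.proj j : (Fin N → ℂ) →L[ℝ] ℂ).comp (fderiv ℝ Z θ)) θ :=
      (ContinuousLinearMap.proj (R := ℝ) (φ := fun _ : Fin N => ℂ) j).hasFDerivAt.comp θ h1
    exact h3.const_mul (a j)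
  rw [h2.fderiv]
  refine (pi_norm_le_iff_of_nonneg (by positivity)).2 fun j => ?_
  rw [ContinuousLinearMap.pi_apply]
  show ‖a j * (fderiv ℝ Z θ v) j‖ ≤ _
  rw [norm_mul]
  exact mul_le_mul (norm_le_pi_norm a j) (norm_le_pi_norm (fderiv ℝ Z θ v) j) (norm_nonneg _)
    (norm_nonneg _)

/-- a periodic continuous function is bounded -/
theorem bdd_box {E : Type*} [NormedAddCommGroup E] {F : (Fin d → ℝ) → E} (hF : Continuous F) :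
    ∃ D : ℝ, 0 ≤ D ∧ ∀ θ ∈ Icc (0 : Fin d → ℝ) 1, ‖F θ‖ ≤ D := by
  obtain ⟨D, hD⟩ := (isCompact_Icc (a := (0 : Fin d → ℝ)) (b := 1)).exists_bound_of_continuousOn
    hF.continuousOn
  exact ⟨|D|, abs_nonneg _, fun θ hθ => (hD θ hθ).trans (le_abs_self _)⟩

end Pool.Agent.T6.H30.RV
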