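import Pool.Agent.TH826.MK.Torus
set_option autoImplicit false

/-!
Affine varieties `W` given as complete intersections, with families of functions `h_{j,i}` on them,
and the varieties `∏_l (z_l + κ_l + 1/z_l) = λ g ∏_j ∏_i h_{j,i} ^ (w_{j,i} + 1)` over `W`.
-/

namespace Pool.Agent.T6.H30.RV

open MvPolynomial

open Pool.Agent.TH826.MK (KQ symb Unramified Torus)

/-- The data: `c` polynomials `G_l` in `c + n + 1` variables with coefficients in `K`, a level
`0, ..., n` for each variable, and for `0 ≤ j ≤ n` polynomials `h_{j,0}, ..., h_{j,r_j}` with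
multiplicities `w_{j,i} + 1`, and a polynomial `g`. -/
structure Sys (K : Type*) [Field K] (c n : ℕ) where
  /-- the equations of the variety `W` -/
  G : Fin c → MvPolynomial (Fin c ⊕ Fin (n + 1)) K
  /-- the levels of the variables -/
  lev : Fin c ⊕ Fin (n + 1) → Fin (n + 1)
  /-- the numbers `r_j` -/
  r : Fin (n + 1) → ℕ
  /-- the functions `h_{j,i}` -/
  h : (j : Fin (n + 1)) → Fin (r j + 1) → MvPolynomial (Fin c ⊕ Fin (n + 1)) K
  /-- the multiplicities minus one -/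
  w : (j : Fin (n + 1)) → Fin (r j + 1) → ℕ
  /-- the function `g` -/
  g : MvPolynomial (Fin c ⊕ Fin (n + 1)) K

variable {K : Type*} [Field K] {c n s : ℕ}

/-- The polynomial `λ g ∏_j ∏_i h_{j,i} ^ (w_{j,i} + 1)`. -/
noncomputable def Sys.phi (S : Sys K c n) (lam : K) : MvPolynomial (Fin c ⊕ Fin (n + 1)) K :=
  C lam * S.g * ∏ j, ∏ i, S.h j i ^ (S.w j i + 1)

/-- The variables of the variety over `W`: those of `W`, then `z_0, ..., z_(s-1)`, and one more. -/
abbrev Vr (c n s : ℕ) : Type := (Fin c ⊕ Fin (n + 1)) ⊕ (Fin s ⊕ Unit)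

/-- the variable `z_l` -/
noncomputable def zv (K : Type*) [Field K] (c n : ℕ) {s : ℕ} (l : Fin s) :
    MvPolynomial (Vr c n s) K := X (Sum.inr (Sum.inl l))

/-- The product `λ g ∏_j ∏_i h_{j,i} ^ (w_{j,i} + 1) ∏_l z_l`. -/
noncomputable def Sys.den (S : Sys K c n) (lam : K) (s : ℕ) : MvPolynomial (Vr c n s) K :=
  rename Sum.inl (S.phi lam) * ∏ l : Fin s, zv K c n l

/-- The polynomial `∏_l (z_l ^ 2 + κ_l z_l + 1)`. -/
noncomputable def num (c n : ℕ) (κ : Fin s → K) : MvPolynomial (Vr c n s) K :=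
  ∏ l, (zv K c n l ^ 2 + C (κ l) * zv K c n l + 1)

/-- The equations: those of `W`, the equation
`∏_l (z_l ^ 2 + κ_l z_l + 1) = λ g ∏_j ∏_i h_{j,i} ^ (w_{j,i} + 1) ∏_l z_l`, and the last variable
times the right-hand side is `1`. -/
noncomputable def Sys.eqns (S : Sys K c n) (lam : K) (κ : Fin s → K) :
    Set (MvPolynomial (Vr c n s) K) :=
  (Set.range fun l => rename Sum.inl (S.G l)) ∪
    {num c n κ - S.den lam s, X (Sum.inr (Sum.inr ())) * S.den lam s - 1}

/-- The coordinate ring of the open part, on which `λ g ∏ h_{j,i} ∏ z_l` is invertible, of the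
variety. If `s = 0` this is the ring of the hypersurface `λ g ∏ h_{j,i} ^ (w_{j,i} + 1) = 1`
of `W`. -/
def Sys.Ring (S : Sys K c n) (lam : K) (κ : Fin s → K) : Type _ :=
  MvPolynomial (Vr c n s) K ⧸ Ideal.span (S.eqns lam κ)

noncomputable instance (S : Sys K c n) (lam : K) (κ : Fin s → K) : CommRing (S.Ring lam κ) :=
  Ideal.Quotient.commRing (Ideal.span (S.eqns lam κ))

variable (S : Sys K c n) (lam : K) (κ : Fin s → K)

/-- The quotient map. -/
noncomputable def Sys.quo : MvPolynomial (Vr c n s) K →+* S.Ring lam κ :=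
  Ideal.Quotient.mk _

/-- the constants -/
noncomputable def Sys.cst : K →+* S.Ring lam κ := (S.quo lam κ).comp C

/-- the functions on `W` -/
noncomputable def Sys.fn : MvPolynomial (Fin c ⊕ Fin (n + 1)) K →+* S.Ring lam κ :=
  (S.quo lam κ).comp (rename Sum.inl : _ →ₐ[K] MvPolynomial (Vr c n s) K).toRingHom

theorem Sys.fn_apply (p : MvPolynomial (Fin c ⊕ Fin (n + 1)) K) :
    S.fn lam κ p = S.quo lam κ (rename Sum.inl p) := rfl

theorem Sys.quo_eqn {p : MvPolynomial (Vr c n s) K} (hp : p ∈ S.eqns lam κ) :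
    S.quo lam κ p = 0 :=
  Ideal.Quotient.eq_zero_iff_mem.2 (Ideal.subset_span hp)

theorem Sys.fn_G (l : Fin c) : S.fn lam κ (S.G l) = 0 :=
  S.quo_eqn lam κ (Or.inl ⟨l, rfl⟩)

theorem Sys.quo_den : S.quo lam κ (X (Sum.inr (Sum.inr ()))) * S.quo lam κ (S.den lam s) = 1 := by
  have h := S.quo_eqn lam κ (p := X (Sum.inr (Sum.inr ())) * S.den lam s - 1)
    (Or.inr (Or.inr rfl))
  rw [map_sub, map_mul, map_one, sub_eq_zero] at h
  exact h

theorem Sys.quo_eqz : ∏ l, (S.quo lam κ (zv K c n l) ^ 2 +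
    S.cst lam κ (κ l) * S.quo lam κ (zv K c n l) + 1) = S.quo lam κ (S.den lam s) := by
  have h := S.quo_eqn lam κ (p := num c n κ - S.den lam s) (Or.inr (Or.inl rfl))
  rw [map_sub, num, map_prod, sub_eq_zero] at h
  rw [← h]
  refine Finset.prod_congr rfl fun l _ => ?_
  rw [map_add, map_add, map_mul, map_pow, map_one]
  rfl

theorem Sys.quo_den_eq : S.quo lam κ (S.den lam s) =
    S.cst lam κ lam * S.fn lam κ S.g * (∏ j, ∏ i, S.fn lam κ (S.h j i) ^ (S.w j i + 1)) *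
      ∏ l, S.quo lam κ (zv K c n l) := by
  unfold Sys.den Sys.phi
  simp only [map_mul, map_prod, map_pow, rename_C]
  rfl

theorem Sys.isUnit_den : IsUnit (S.quo lam κ (S.den lam s)) :=
  IsUnit.of_mul_eq_one _ (by rw [mul_comm]; exact S.quo_den lam κ)

theorem Sys.isUnit_z (l : Fin s) : IsUnit (S.quo lam κ (zv K c n l)) := by
  have h := S.isUnit_den lam κ
  rw [S.quo_den_eq] at h
  exact isUnit_of_dvd_unit ((Finset.dvd_prod_of_mem (fun l => S.quo lam κ (zv K c n l))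
    (Finset.mem_univ l)).trans (Dvd.intro_left _ rfl)) h

theorem Sys.isUnit_h (j : Fin (n + 1)) (i : Fin (S.r j + 1)) :
    IsUnit (S.fn lam κ (S.h j i)) := by
  have h := S.isUnit_den lam κ
  rw [S.quo_den_eq] at h
  refine isUnit_of_dvd_unit ?_ h
  refine (dvd_pow_self _ (Nat.succ_ne_zero (S.w j i))).trans ?_
  refine (Finset.dvd_prod_of_mem (fun i => S.fn lam κ (S.h j i) ^ (S.w j i + 1))
    (Finset.mem_univ i)).trans ?_
  refine (Finset.dvd_prod_of_mem (fun j => ∏ i, S.fn lam κ (S.h j i) ^ (S.w j i + 1))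
    (Finset.mem_univ j)).trans ?_
  exact (Dvd.intro_left _ rfl).trans (Dvd.intro _ rfl)

/-- the unit `z_l` -/
noncomputable def Sys.uz (l : Fin s) : (S.Ring lam κ)ˣ := (S.isUnit_z lam κ l).unit

/-- the unit `h_{j,i}` -/
noncomputable def Sys.uh (j : Fin (n + 1)) (i : Fin (S.r j + 1)) : (S.Ring lam κ)ˣ :=
  (S.isUnit_h lam κ j i).unit

/-- the unit `h_{j,k+1} / h_{j,0}` -/
noncomputable def Sys.uq (j : Fin (n + 1)) (k : Fin (S.r j)) : (S.Ring lam κ)ˣ :=
  S.uh lam κ j k.succ / S.uh lam κ j 0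

/-- The entries `h_{0,k_0+1} / h_{0,0}, z_0, ..., z_(s-1), h_{1,k_1+1} / h_{1,0}, ...,
h_{n,k_n+1} / h_{n,0}` of the symbol. -/
noncomputable def Sys.ent (k : ∀ j, Fin (S.r j)) : Fin (s + n + 1) → (S.Ring lam κ)ˣ :=
  Fin.cons (S.uq lam κ 0 (k 0)) (Fin.append (S.uz lam κ) fun a : Fin n =>
    S.uq lam κ a.succ (k a.succ))

/-- The functions `G_l` and `h_{j,T_j+1}`. -/
def Sys.van (T : ∀ j, Fin (S.r j)) (a : Fin c ⊕ Fin (n + 1)) :
    MvPolynomial (Fin c ⊕ Fin (n + 1)) K :=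
  Sum.elim S.G (fun j => S.h j (T j).succ) a

/-- Their Jacobian matrix at `P`. -/
noncomputable def Sys.jac (σ : K →+* ℂ) (T : ∀ j, Fin (S.r j)) (P : Fin c ⊕ Fin (n + 1) → ℂ) :
    Matrix (Fin c ⊕ Fin (n + 1)) (Fin c ⊕ Fin (n + 1)) ℂ :=
  Matrix.of fun a t => eval₂ σ P (pderiv t (S.van T a))

/-- `P` is a common zero of the `G_l` and of the `h_{j,T_j+1}`, at which `g` and the other `h_{j,i}`
do not vanish, and at which the Jacobian determinant of the `G_l` and the `h_{j,T_j+1}` does not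
vanish. -/
def Sys.Vertex (σ : K →+* ℂ) (T : ∀ j, Fin (S.r j)) (P : Fin c ⊕ Fin (n + 1) → ℂ) : Prop :=
  (∀ l, eval₂ σ P (S.G l) = 0) ∧ (∀ j i, eval₂ σ P (S.h j i) = 0 ↔ i = (T j).succ) ∧
    eval₂ σ P S.g ≠ 0 ∧ (S.jac σ T P).det ≠ 0

/-- The indices `T = (T_0, ..., T_n)` for which the functions `h_{0,T_0+1}, ..., h_{n,T_n+1}` have a
transversal common zero over `σ`, at which `g` and the other `h_{j,i}` do not vanish. -/
def Sys.Idx (S : Sys K c n) (σ : K →+* ℂ) : Type :=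
  {T : (∀ j, Fin (S.r j)) // ∃ P, S.Vertex σ T P}

open Classical in
noncomputable instance (S : Sys K c n) (σ : K →+* ℂ) : Fintype (S.Idx σ) :=
  Subtype.fintype fun T => ∃ P, S.Vertex σ T P

noncomputable instance (S : Sys K c n) (σ : K →+* ℂ) : DecidableEq (S.Idx σ) :=
  Classical.decEq _

end Pool.Agent.T6.H30.RV
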