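import Pool.Agent.TH826.MK.Bound
set_option autoImplicit false

/-!
The regulator integral with a constant first entry, and its change under small perturbations of
the other entries.
-/

namespace Pool.Agent.T6.H30.RV

open MeasureTheory Set

open Pool.Agent.TH826.MK

variable {d : ℕ}

/-- The minor of the matrix of the rows `grow (g l)` without the first column. -/
noncomputable def amat (g : Fin d → (Fin d → ℝ) → ℂ) (y : Fin (d + 1) → ℝ) : Fin d → Fin d → ℂ :=
  fun l j => grow (g l) y j.succ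

theorem det_const (a : ℂ) (g : Fin d → (Fin d → ℝ) → ℂ) (y : Fin (d + 1) → ℝ) :
    (Matrix.of fun l => grow ((Fin.cons (fun _ => a) g : Fin (d + 1) → (Fin d → ℝ) → ℂ) l) y).det =
      (Real.log ‖a‖ : ℝ) * (Matrix.of (amat g y)).det := by
  rw [Matrix.det_succ_row_zero, Fin.sum_univ_succ, Finset.sum_eq_zero, add_zero]
  · rw [Matrix.of_apply, Fin.cons_zero, grow_zero]
    simp only [Fin.val_zero, pow_zero, one_mul]
    congr 1
  · intro j _
    rw [Matrix.of_apply, Fin.cons_zero, grow_const]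
    ring

/-- The integral of the minor. -/
noncomputable def jint (g : Fin d → (Fin d → ℝ) → ℂ) : ℝ :=
  ∫ y in Icc (0 : Fin (d + 1) → ℝ) 1, ((-Complex.I) ^ d * (Matrix.of (amat g y)).det).re

theorem pairing_const_eq (a : ℂ) (g : Fin d → (Fin d → ℝ) → ℂ) :
    pairing (Fin.cons (fun _ => a) g) = Real.log ‖a‖ * jint g := by
  unfold pairing jint
  rw [← integral_const_mul]
  refine integral_congr_ae (Filter.Eventually.of_forall fun y => ?_)
  unfold integrand
  simp only [det_const]
  rw [mul_left_comm, Complex.re_ofReal_mul]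

theorem continuous_amat {g : Fin d → (Fin d → ℝ) → ℂ} (hg : ∀ l, Good (g l)) :
    Continuous fun y => ((-Complex.I) ^ d * (Matrix.of (amat g y)).det).re := by
  refine Complex.continuous_re.comp (continuous_const.mul ?_)
  refine Continuous.matrix_det ?_
  refine continuous_pi fun l => continuous_pi fun j => ?_
  exact (continuous_apply j.succ).comp (continuous_grow (hg l))

theorem vol_box : (volume : Measure (Fin (d + 1) → ℝ)) (Icc 0 1) = 1 := by
  rw [Real.volume_Icc_pi]
  simp

theorem abs_jint_sub_le {g h : Fin d → (Fin d → ℝ) → ℂ} (hg : ∀ l, Good (g l))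
    (hh : ∀ l, Good (h l)) {η : ℝ}
    (H : ∀ y ∈ Icc (0 : Fin (d + 1) → ℝ) 1,
      ‖(Matrix.of (amat g y)).det - (Matrix.of (amat h y)).det‖ ≤ η) :
    |jint g - jint h| ≤ η := by
  unfold jint
  rw [← integral_sub ((continuous_amat hg).continuousOn.integrableOn_compact isCompact_Icc)
    ((continuous_amat hh).continuousOn.integrableOn_compact isCompact_Icc)]
  have h2 : ∀ y ∈ Icc (0 : Fin (d + 1) → ℝ) 1,
      ‖((-Complex.I) ^ d * (Matrix.of (amat g y)).det).re -
        ((-Complex.I) ^ d * (Matrix.of (amat h y)).det).re‖ ≤ η := by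
    intro y hy
    rw [← Complex.sub_re, ← mul_sub, Real.norm_eq_abs]
    refine (Complex.abs_re_le_norm _).trans ?_
    rw [norm_mul, norm_pow, norm_neg, Complex.norm_I, one_pow, one_mul]
    exact H y hy
  have h4 := norm_setIntegral_le_of_norm_le_const (μ := (volume : Measure (Fin (d + 1) → ℝ)))
    (by rw [vol_box]; exact ENNReal.one_lt_top) h2
  rw [Measure.real, vol_box] at h4
  simpa using h4

/-- Uniform continuity of the determinant. -/
theorem det_unif (d : ℕ) (B η : ℝ) (hη : 0 < η) : ∃ ε : ℝ, 0 < ε ∧ ∀ A E : Fin d → Fin d → ℂ,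
    (∀ i j, ‖A i j‖ ≤ B) → (∀ i j, ‖E i j‖ ≤ ε) →
      ‖(Matrix.of (fun i j => A i j + E i j)).det - (Matrix.of A).det‖ ≤ η := by
  have hc : Continuous fun A : Fin d → Fin d → ℂ => (Matrix.of A).det := by
    refine Continuous.matrix_det ?_
    exact continuous_id
  have hK : IsCompact (Metric.closedBall (0 : Fin d → Fin d → ℂ) (|B| + 1)) :=
    isCompact_closedBall _ _
  have hu := hK.uniformContinuousOn_of_continuous hc.continuousOn
  rw [Metric.uniformContinuousOn_iff] at hu
  obtain ⟨ε, hε, h⟩ := hu η hη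
  refine ⟨min (ε / 2) 1, lt_min (half_pos hε) one_pos, fun A E hA hE => ?_⟩
  have hE0 : ‖E‖ ≤ min (ε / 2) 1 := by
    refine (pi_norm_le_iff_of_nonneg (le_min (half_pos hε).le zero_le_one)).2 fun i => ?_
    exact (pi_norm_le_iff_of_nonneg (le_min (half_pos hε).le zero_le_one)).2 fun j => hE i j
  have hA0 : ‖A‖ ≤ |B| := by
    refine (pi_norm_le_iff_of_nonneg (abs_nonneg _)).2 fun i => ?_
    exact (pi_norm_le_iff_of_nonneg (abs_nonneg _)).2 fun j => (hA i j).trans (le_abs_self _)
  have h1 := h (A + E) (by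
    rw [mem_closedBall_zero_iff]
    refine (norm_add_le _ _).trans (add_le_add hA0 (hE0.trans (min_le_right _ _)))) A (by
    rw [mem_closedBall_zero_iff]
    linarith) (by
    rw [dist_eq_norm, add_sub_cancel_left]
    exact (hE0.trans (min_le_left _ _)).trans_lt (half_lt_self hε))
  rw [dist_eq_norm] at h1
  exact h1.le

theorem tl_mem {y : Fin (d + 1) → ℝ} (hy : y ∈ Icc (0 : Fin (d + 1) → ℝ) 1) :
    tl d y ∈ Icc (0 : Fin d → ℝ) 1 :=
  ⟨fun j => hy.1 j.succ, fun j => hy.2 j.succ⟩

/-- The change of the integral if the entries are multiplied by functions with small logarithmic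
derivatives. -/
theorem jint_mul (d : ℕ) (B η : ℝ) (hη : 0 < η) : ∃ ε : ℝ, 0 < ε ∧
    ∀ M V : Fin d → (Fin d → ℝ) → ℂ, (∀ l, Good (M l)) → (∀ l, Good (V l)) →
      (∀ l j, ∀ θ ∈ Icc (0 : Fin d → ℝ) 1, 2 * ‖lw (M l) j θ‖ ≤ B) →
      (∀ l j, ∀ θ ∈ Icc (0 : Fin d → ℝ) 1, 2 * ‖lw (V l) j θ‖ ≤ ε) →
      |jint (fun l θ => M l θ * V l θ) - jint M| ≤ η := by
  obtain ⟨ε, hε, h⟩ := det_unif d B η hη
  refine ⟨ε, hε, fun M V hM hV h1 h2 => ?_⟩
  have hb : ∀ (g : (Fin d → ℝ) → ℂ) (b : ℝ),
      (∀ j, ∀ θ ∈ Icc (0 : Fin d → ℝ) 1, 2 * ‖lw g j θ‖ ≤ b) →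
      ∀ y ∈ Icc (0 : Fin (d + 1) → ℝ) 1, ∀ j : Fin d, ‖grow g y j.succ‖ ≤ b := by
    intro g b hb y hy j
    rw [grow_succ]
    refine (norm_add_le _ _).trans ?_
    rw [norm_mul, Complex.norm_I, one_mul, Complex.norm_real, Complex.norm_real,
      Real.norm_eq_abs, Real.norm_eq_abs, abs_mul]
    have h2 : |y 0| ≤ 1 := by
      rw [abs_of_nonneg (hy.1 0)]
      exact hy.2 0
    have h3 := Complex.abs_re_le_norm (lw g j (tl d y))
    have h4 := Complex.abs_im_le_norm (lw g j (tl d y))
    have h5 : |y 0| * |(lw g j (tl d y)).re| ≤ 1 * ‖lw g j (tl d y)‖ :=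
      mul_le_mul h2 h3 (abs_nonneg _) zero_le_one
    have := hb j (tl d y) (tl_mem hy)
    linarith
  refine abs_jint_sub_le (fun l => (hM l).mul (hV l)) hM fun y hy => ?_
  have e : amat (fun l θ => M l θ * V l θ) y = fun i j => amat M y i j + amat V y i j := by
    funext i j
    unfold amat
    rw [grow_mul (hM i) (hV i), Pi.add_apply]
  rw [e]
  exact h _ _ (fun i j => hb _ _ (h1 i) y hy j) (fun i j => hb _ _ (h2 i) y hy j)

/-- An entry is constant. -/
theorem jint_eq_zero {g : Fin d → (Fin d → ℝ) → ℂ} {l : Fin d} {c : ℂ} (h : g l = fun _ => c) :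
    jint g = 0 := by
  unfold jint
  have e : ∀ y : Fin (d + 1) → ℝ, (Matrix.of (amat g y)).det = 0 := by
    intro y
    refine Matrix.det_eq_zero_of_row_eq_zero l fun j => ?_
    rw [Matrix.of_apply]
    unfold amat
    rw [h, grow_const]
  simp only [e, mul_zero, Complex.zero_re, integral_zero]

theorem jint_vf {G : Fin d → ℝ → ℂ} {w : Fin d → ℝ} (h : ∀ l, One (G l) (w l)) :
    jint (vf G) = (2 * Real.pi) ^ d * ∏ l, w l := by
  have h1 := pairing_const_eq (Real.exp 1 : ℂ) (vf G)
  rw [pairing_const _ _ _ h, Complex.norm_real, Real.norm_eq_abs, Real.abs_exp, Real.log_exp] at h1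
  linarith

/-- the winding circles -/
theorem one_circ {R : ℝ} (hR : 0 < R) (m : ℕ) :
    One (fun t : ℝ => circ R (m * t)) m where
  smooth := (contDiff_circ R).comp (contDiff_const.mul contDiff_id)
  ne_zero s := by
    have h := norm_circ hR.le (m * s)
    intro h0
    rw [h0, norm_zero] at h
    exact hR.ne h
  per s := by
    have h : ∀ (k : ℕ) (t : ℝ), circ R (t + k) = circ R t := by
      intro k
      induction k with
      | zero => intro t; simp
      | succ k ih =>
        intro t
        rw [Nat.cast_succ, ← add_assoc, circ_add_one, ih]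
    rw [mul_add, mul_one]
    exact h m _
  wind := by
    have h1 : ∀ s : ℝ, deriv (fun t : ℝ => circ R (m * t)) s / circ R (m * s) =
        2 * Real.pi * Complex.I * m := by
      intro s
      have h2 := (hasDerivAt_circ R (m * s)).scomp s ((hasDerivAt_id s).const_mul (m : ℝ))
      have h3 : deriv (fun t : ℝ => circ R (m * t)) s =
          ((m : ℝ) * 1) • (2 * Real.pi * Complex.I * circ R (m * s)) := h2.deriv
      rw [h3]
      have h4 : circ R (m * s) ≠ 0 := by
        have h := norm_circ hR.le (m * s)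
        intro h0
        rw [h0, norm_zero] at h
        exact hR.ne h
      rw [Complex.real_smul]
      field_simp
      push_cast
      ring
    simp only [h1]
    simp

theorem ld_circ {R : ℝ} (hR : 0 < R) (m : ℕ) (s : ℝ) :
    deriv (fun t : ℝ => circ R (m * t)) s / circ R (m * s) = 2 * Real.pi * Complex.I * m := by
  have h2 := (hasDerivAt_circ R (m * s)).scomp s ((hasDerivAt_id s).const_mul (m : ℝ))
  have h3 : deriv (fun t : ℝ => circ R (m * t)) s =
      ((m : ℝ) * 1) • (2 * Real.pi * Complex.I * circ R (m * s)) := h2.deriv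
  rw [h3]
  have h4 : circ R (m * s) ≠ 0 := by
    have h := norm_circ hR.le (m * s)
    intro h0
    rw [h0, norm_zero] at h
    exact hR.ne h
  rw [Complex.real_smul]
  field_simp
  push_cast
  ring

end Pool.Agent.T6.H30.RV
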