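import Pool.Agent.T6.H30.RV.Adm
import Pool.Agent.TH333.CY.Unram
set_option autoImplicit false

/-!
The symbols are unramified at all discrete valuations.
-/

namespace Pool.Agent.T6.H30.RV

open scoped WithZero

open MvPolynomial

open Pool.Agent.TH826.MK

open Pool.Agent.TH333.CY (all_one val_pow_sub_one)

variable {K : Type*} [Field K] {c n s : ℕ} {S : Sys K c n} {lam : K} {κ : Fin s → K}
  {L : Type*} [Field L] (f : S.Ring lam κ →+* L)

/-- the map from the coordinate ring of `W` -/
noncomputable def resF : S.Fun →+* L :=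
  Ideal.Quotient.lift _ (f.comp (S.fn lam κ)) (by
    intro a ha
    have h1 : Ideal.span (Set.range S.G) ≤ RingHom.ker (f.comp (S.fn lam κ)) := by
      refine Ideal.span_le.2 ?_
      rintro _ ⟨l, rfl⟩
      show f (S.fn lam κ (S.G l)) = 0
      rw [S.fn_G, map_zero]
    exact h1 ha)

theorem resF_res (p : MvPolynomial (Fin c ⊕ Fin (n + 1)) K) :
    resF f (S.res p) = f (S.fn lam κ p) := rfl

/-- the map from the constants -/
noncomputable def cF : K →+* L := f.comp (S.cst lam κ)

/-- the image of `z_l` -/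
noncomputable def zF (l : Fin s) : L := f (S.quo lam κ (zv K c n l))

theorem zF_eq : ∏ l, (zF f l ^ 2 + cF f (κ l) * zF f l + 1) =
    (cF f lam * resF f (S.res S.g) * ∏ j, ∏ i, resF f (S.res (S.h j i)) ^ (S.w j i + 1)) *
      ∏ l, zF f l := by
  have h := congrArg f (S.quo_eqz lam κ)
  rw [S.quo_den_eq] at h
  simp only [map_mul, map_prod, map_add, map_pow, map_one] at h
  exact h

theorem zF_ne_zero (l : Fin s) : zF f l ≠ 0 := ((S.isUnit_z lam κ l).map f).ne_zero

theorem hF_ne_zero (j : Fin (n + 1)) (i : Fin (S.r j + 1)) : resF f (S.res (S.h j i)) ≠ 0 :=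
  ((S.isUnit_h lam κ j i).map f).ne_zero

/-- The symbols are unramified at all discrete valuations. -/
theorem symb_mem_unitPart (hS : S.Adm) (hlam : IsIntegral ℤ lam) (hκ : ∀ l, IsIntegral ℤ (κ l))
    {N : ℕ} (hN0 : N ≠ 0)
    (hN : ∀ l, (Polynomial.X ^ 2 + Polynomial.C (κ l) * Polynomial.X + 1 : Polynomial K) ∣
      Polynomial.X ^ N - 1)
    (v : Valuation L ℤᵐ⁰) (k : ∀ j, Fin (S.r j)) :
    symb (fun l => Units.map (f : S.Ring lam κ →* L) (S.ent lam κ k l)) ∈
      unitPart v (s + n + 1) := by
  classical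
  have hc : ∀ x : K, IsIntegral ℤ x → v (cF f x) ≤ 1 := fun x hx =>
    val_le_one_of_integral v (map_isIntegral_int _ hx)
  -- the entries
  have hzent : ∀ l, ∃ i : Fin (s + n + 1),
      (Units.map (f : S.Ring lam κ →* L) (S.ent lam κ k i) : L) = zF f l := by
    intro l
    refine ⟨(Fin.castAdd n l).succ, ?_⟩
    unfold Sys.ent
    rw [Fin.cons_succ, Fin.append_left]
    rfl
  have hdiv : ∀ j (i : Fin (S.r j)), (Units.map (f : S.Ring lam κ →* L) (S.uq lam κ j i) : L) =
      resF f (S.res (S.h j i.succ)) / resF f (S.res (S.h j 0)) := by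
    intro j i
    unfold Sys.uq
    rw [map_div, Units.val_div_eq_div_val]
    rfl
  have hjent : ∀ j, ∃ i : Fin (s + n + 1),
      (Units.map (f : S.Ring lam κ →* L) (S.ent lam κ k i) : L) =
        resF f (S.res (S.h j (k j).succ)) / resF f (S.res (S.h j 0)) := by
    intro j
    refine Fin.cases ?_ (fun a => ?_) j
    · refine ⟨0, ?_⟩
      unfold Sys.ent
      rw [Fin.cons_zero]
      exact hdiv 0 _
    · refine ⟨(Fin.natAdd s a).succ, ?_⟩
      unfold Sys.ent
      rw [Fin.cons_succ, Fin.append_right]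
      exact hdiv a.succ _
  rcases hS.cases (resF f) v with ⟨hh, hg⟩ | ⟨j, -, hj⟩
  · have hPhi : v (cF f lam * resF f (S.res S.g) *
        ∏ j, ∏ i, resF f (S.res (S.h j i)) ^ (S.w j i + 1)) ≤ 1 := by
      rw [map_mul, map_mul, map_prod]
      refine mul_le_one' (mul_le_one' (hc _ hlam) hg) (Finset.prod_le_one' fun j _ => ?_)
      rw [map_prod]
      refine Finset.prod_le_one' fun i _ => ?_
      rw [map_pow]
      exact pow_le_one' (hh j i) _
    by_cases hB1 : ∃ l, v (zF f l) = 1 ∧ v (zF f l ^ 2 + cF f (κ l) * zF f l + 1) < 1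
    · obtain ⟨l, hl1, hl2⟩ := hB1
      obtain ⟨i, hi⟩ := hzent l
      refine mem_unitPart_of_pow v i (m := N) _ hN0 ?_
      rw [hi]
      exact val_pow_sub_one (cF f) v (hκ l) (hN l) hl1.le hl2
    · push Not at hB1
      have hlow : ∀ l, v (zF f l) < 1 → v (zF f l ^ 2 + cF f (κ l) * zF f l + 1) = 1 := by
        intro l hl
        rw [add_comm]
        refine Valuation.map_one_add_of_lt v ?_
        refine (v.map_add _ _).trans_lt (max_lt ?_ ?_)
        · rw [map_pow]
          exact pow_lt_one₀ zero_le hl (by norm_num)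
        · rw [map_mul]
          calc _ ≤ 1 * v (zF f l) := mul_le_mul' (hc _ (hκ l)) le_rfl
            _ = v (zF f l) := one_mul _
            _ < 1 := hl
      have hhigh : ∀ l, 1 < v (zF f l) →
          v (zF f l ^ 2 + cF f (κ l) * zF f l + 1) = v (zF f l) ^ 2 := by
        intro l hl
        have hl2 : v (zF f l) < v (zF f l) ^ 2 := by
          rw [pow_two]
          exact lt_mul_of_one_lt_left (zero_lt_one.trans hl) hl
        rw [add_assoc, ← map_pow]
        refine Valuation.map_add_eq_of_lt_left v ?_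
        rw [map_pow]
        refine (v.map_add _ _).trans_lt (max_lt ?_ ?_)
        · rw [map_mul]
          calc _ ≤ 1 * v (zF f l) := mul_le_mul' (hc _ (hκ l)) le_rfl
            _ = v (zF f l) := one_mul _
            _ < _ := hl2
        · rw [map_one]
          exact hl.trans hl2
      have hPhi0 : cF f lam * resF f (S.res S.g) *
          ∏ j, ∏ i, resF f (S.res (S.h j i)) ^ (S.w j i + 1) ≠ 0 := by
        have h1 := ((S.isUnit_den lam κ).map f).ne_zero
        rw [S.quo_den_eq, map_mul] at h1
        have h2 := left_ne_zero_of_mul h1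
        simp only [map_mul, map_prod, map_pow] at h2
        exact h2
      have hg0 : ∀ l, v (zF f l ^ 2 + cF f (κ l) * zF f l + 1) ≠ 0 := by
        intro l h0
        have h1 := congrArg v (zF_eq f)
        rw [map_prod, Finset.prod_eq_zero (Finset.mem_univ l) h0] at h1
        exact (Valuation.ne_zero_iff v).2 (mul_ne_zero hPhi0
          (Finset.prod_ne_zero_iff.2 fun l _ => zF_ne_zero f l)) h1.symm
      have ht : ∀ l, v (zF f l) / v (zF f l ^ 2 + cF f (κ l) * zF f l + 1) ≤ 1 := by
        intro l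
        rw [div_le_one₀ (zero_lt_iff.2 (hg0 l))]
        rcases lt_trichotomy (v (zF f l)) 1 with h | h | h
        · rw [hlow l h]
          exact h.le
        · rw [h]
          exact hB1 l h
        · rw [hhigh l h, pow_two]
          exact (lt_mul_of_one_lt_left (zero_lt_one.trans h) h).le
      have hprod : v (cF f lam * resF f (S.res S.g) *
          ∏ j, ∏ i, resF f (S.res (S.h j i)) ^ (S.w j i + 1)) *
          ∏ l, (v (zF f l) / v (zF f l ^ 2 + cF f (κ l) * zF f l + 1)) = 1 := by
        have h1 := congrArg v (zF_eq f)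
        rw [map_mul, map_prod, map_prod] at h1
        rw [Finset.prod_div_distrib, ← mul_div_assoc, ← h1]
        exact div_self (Finset.prod_ne_zero_iff.2 fun l _ => hg0 l)
      obtain ⟨hP1, hz1⟩ := all_one ht hPhi hprod
      have hz2 : ∀ l, v (zF f l) = 1 := by
        intro l
        have h1 := hz1 l
        rw [div_eq_one_iff_eq (hg0 l)] at h1
        rcases lt_trichotomy (v (zF f l)) 1 with h | h | h
        · rw [hlow l h] at h1
          exact h1
        · exact h
        · rw [hhigh l h, pow_two] at h1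
          exact absurd h1 (lt_mul_of_one_lt_left (zero_lt_one.trans h) h).ne
      have hP2 : v (cF f lam * resF f (S.res S.g)) *
          ∏ e : (j : Fin (n + 1)) × Fin (S.r j + 1),
            v (resF f (S.res (S.h e.1 e.2))) ^ (S.w e.1 e.2 + 1) = 1 := by
        rw [map_mul, map_prod] at hP1
        simp only [map_prod, map_pow] at hP1
        rw [Fintype.prod_sigma]
        exact hP1
      obtain ⟨-, hl1⟩ := all_one (fun e : (j : Fin (n + 1)) × Fin (S.r j + 1) =>
        pow_le_one' (hh e.1 e.2) (S.w e.1 e.2 + 1))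
        (by rw [map_mul]; exact mul_le_one' (hc _ hlam) hg) hP2
      have hh1 : ∀ j i, v (resF f (S.res (S.h j i))) = 1 := by
        intro j i
        by_contra hne
        have h1 : v (resF f (S.res (S.h j i))) ^ (S.w j i + 1) = 1 := hl1 ⟨j, i⟩
        exact (pow_lt_one₀ zero_le (lt_of_le_of_ne (hh j i) hne) (Nat.succ_ne_zero _)).ne h1
      refine Submodule.subset_span ⟨_, fun l => ?_, rfl⟩
      refine Fin.cases ?_ (fun l => ?_) l
      · unfold Sys.ent
        rw [Fin.cons_zero, hdiv, map_div₀, hh1, hh1, div_one]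
      · unfold Sys.ent
        rw [Fin.cons_succ]
        refine Fin.addCases (fun l => ?_) (fun a => ?_) l
        · rw [Fin.append_left]
          exact hz2 l
        · rw [Fin.append_right, hdiv, map_div₀, hh1, hh1, div_one]
  · obtain ⟨i, hi⟩ := hjent j
    obtain ⟨M, hM0, hM⟩ := hj (k j).succ
    refine mem_unitPart_of_pow v i (m := M) _ hM0 ?_
    rw [hi]
    exact hM

theorem symb_mem_unramified (hS : S.Adm) (hlam : IsIntegral ℤ lam)
    (hκ : ∀ l, IsIntegral ℤ (κ l)) {N : ℕ} (hN0 : N ≠ 0)
    (hN : ∀ l, (Polynomial.X ^ 2 + Polynomial.C (κ l) * Polynomial.X + 1 : Polynomial K) ∣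
      Polynomial.X ^ N - 1) (k : ∀ j, Fin (S.r j)) :
    KQ.map (s + n + 1) f (symb (S.ent lam κ k)) ∈ Unramified L (s + n + 1) := by
  rw [KQ.map_symb]
  unfold Unramified
  simp only [Submodule.mem_iInf]
  intro v _
  exact symb_mem_unitPart f hS hlam hκ hN0 hN v k

end Pool.Agent.T6.H30.RV
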