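import Pool.Agent.T6.H30.RV.Tor
import Pool.Agent.T6.H30.RV.Unr
set_option autoImplicit false

/-!
The regulator matrix.
-/

namespace Pool.Agent.T6.H30.RV

open MvPolynomial

open Pool.Agent.TH826.MK

universe u v

variable {K : Type u} [Field K] {c n s : ℕ}

/-- The regulator matrix of the symbols on tori. -/
noncomputable def Sys.regs (S : Sys K c n) (σ : K →+* ℂ) (lam : K) (κ : Fin s → K)
    (Γ : S.Idx σ → Torus (S.Ring lam κ) (s + n)) : Matrix (S.Idx σ) (S.Idx σ) ℝ :=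
  Matrix.of fun T k => (Γ T).reg (symb (S.ent lam κ k.1))

/-- The regulator matrix of the symbols that correspond to the vertices. -/
theorem exists_tori (S : Sys K c n) (κ : Fin s → K) (σ : K →+* ℂ) :
    ∃ C : ℝ, ∀ lam : K, C ≤ ‖σ lam‖ →
      ∃ Γ : S.Idx σ → Torus (S.Ring lam κ) (s + n),
        (∀ T θ a, (Γ T).e θ (S.cst lam κ a) = σ a) ∧ (S.regs σ lam κ Γ).det ≠ 0 := by
  classical
  set I := S.Idx σ with hI
  set N : ℕ := Fintype.card I with hN
  set η : ℝ := 1 / (N + 1) with hη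
  have hη0 : 0 < η := by positivity
  have hη1 : η ≤ 1 := by
    rw [hη, div_le_one (by positivity)]
    have : (0 : ℝ) ≤ N := Nat.cast_nonneg N
    linarith
  have hNη : N * η < 1 := by
    rw [hη, mul_one_div, div_lt_one (by positivity)]
    linarith
  have h0 : ∀ T : I, _ := fun T => exists_torus S κ σ T.2.choose_spec hη0 hη1
  choose C hC using h0
  refine ⟨∑ T, |C T|, fun lam hlam => ?_⟩
  have hCT : ∀ T, C T ≤ ‖σ lam‖ := fun T =>
    (le_abs_self _).trans ((Finset.single_le_sum (f := fun T => |C T|)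
      (fun T _ => abs_nonneg _) (Finset.mem_univ T)).trans hlam)
  choose Γ hΓ t ht h1 h2 using fun T => hC T lam (hCT T)
  refine ⟨Γ, hΓ, det_ne_zero_of_sum_row_lt_diag fun T => ?_⟩
  simp only [Sys.regs, Matrix.of_apply, Real.norm_eq_abs]
  refine lt_of_lt_of_le ?_ (h1 T)
  calc ∑ k ∈ Finset.univ.erase T, |(Γ T).reg (symb (S.ent lam κ k.1))|
      ≤ ∑ k ∈ Finset.univ.erase T, η * t T := by
        refine Finset.sum_le_sum fun k hk => h2 T k.1 ?_
        intro he
        exact (Finset.mem_erase.1 hk).1 (Subtype.ext he)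
    _ ≤ ∑ k : I, η * t T := by
        refine Finset.sum_le_sum_of_subset_of_nonneg (Finset.subset_univ _) fun k _ _ => ?_
        exact mul_nonneg hη0.le (ht T).le
    _ = (N * η) * t T := by
        rw [Finset.sum_const, Finset.card_univ, nsmul_eq_mul, mul_assoc]
    _ < 1 * t T := mul_lt_mul_of_pos_right hNη (ht T)
    _ = t T := one_mul _

/-- Symbols on fibrations over affine varieties. -/
theorem main (S : Sys K c n) (hS : S.Adm) (κ : Fin s → K) (hκ : ∀ l, IsIntegral ℤ (κ l))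
    {N : ℕ} (hN0 : N ≠ 0)
    (hN : ∀ l, (Polynomial.X ^ 2 + Polynomial.C (κ l) * Polynomial.X + 1 : Polynomial K) ∣
      Polynomial.X ^ N - 1) (σ : K →+* ℂ) :
    ∃ C : ℝ, ∀ lam : K, IsIntegral ℤ lam → C ≤ ‖σ lam‖ →
      (∀ (L : Type v) [Field L] (f : S.Ring lam κ →+* L) (k : ∀ j, Fin (S.r j)),
        KQ.map (s + n + 1) f (symb (S.ent lam κ k)) ∈ Unramified L (s + n + 1)) ∧
      ∃ Γ : S.Idx σ → Torus (S.Ring lam κ) (s + n),
        (∀ T θ a, (Γ T).e θ (S.cst lam κ a) = σ a) ∧ (S.regs σ lam κ Γ).det ≠ 0 := by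
  obtain ⟨C, hC⟩ := exists_tori S κ σ
  exact ⟨C, fun lam hlam h => ⟨fun L _ f k => symb_mem_unramified f hS hlam hκ hN0 hN k,
    hC lam h⟩⟩

end Pool.Agent.T6.H30.RV
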