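import Mathlib
set_option autoImplicit false

/-!
Local coordinates from the inverse function theorem.
-/

namespace Pool.Agent.T6.H30.RV

open Filter Topology

variable {ι : Type*} [Fintype ι] [DecidableEq ι]

/-- Functions `f_i` with `f_i (P) = 0` and an invertible Jacobian matrix at `P` are local
coordinates. -/
theorem exists_coord (f : ι → (ι → ℂ) → ℂ) (P : ι → ℂ) (hf : ∀ i, ContDiffAt ℂ 2 (f i) P)
    (h0 : ∀ i, f i P = 0)
    (hdet : (Matrix.of fun i j => fderiv ℂ (f i) P (Pi.single j 1)).det ≠ 0) :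
    ∃ ψ : (ι → ℂ) → (ι → ℂ), ContDiffAt ℂ 2 ψ 0 ∧ ψ 0 = P ∧
      ∀ᶠ ζ in 𝓝 (0 : ι → ℂ), ∀ i, f i (ψ ζ) = ζ i := by
  set J : Matrix ι ι ℂ := Matrix.of fun i j => fderiv ℂ (f i) P (Pi.single j 1) with hJ
  set F : (ι → ℂ) → (ι → ℂ) := fun x i => f i x with hF
  have hFc : ContDiffAt ℂ 2 F P := contDiffAt_pi.2 hf
  have hd : HasFDerivAt F (ContinuousLinearMap.pi fun i => fderiv ℂ (f i) P) P :=
    hasFDerivAt_pi.2 fun i => ((hf i).differentiableAt (by norm_num)).hasFDerivAt
  have hdet' : (Matrix.toLin' J).det ≠ 0 := by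
    rw [LinearMap.det_toLin']
    exact hdet
  set e : (ι → ℂ) ≃L[ℂ] (ι → ℂ) :=
    ((Matrix.toLin' J).equivOfDetNeZero hdet').toContinuousLinearEquiv with he
  have he' : (e : (ι → ℂ) →L[ℂ] (ι → ℂ)) = ContinuousLinearMap.pi fun i => fderiv ℂ (f i) P := by
    ext x i
    have h1 : (e : (ι → ℂ) →L[ℂ] (ι → ℂ)) x = Matrix.toLin' J x := rfl
    rw [h1, Matrix.toLin'_apply, ContinuousLinearMap.pi_apply]
    have h2 : fderiv ℂ (f i) P x = ∑ j, x j * fderiv ℂ (f i) P (Pi.single j 1) := by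
      conv_lhs => rw [← Finset.univ_sum_single x, map_sum]
      refine Finset.sum_congr rfl fun j _ => ?_
      have h3 : (Pi.single j (x j) : ι → ℂ) = x j • Pi.single j 1 := by
        rw [← Pi.single_smul, smul_eq_mul, mul_one]
      rw [h3, map_smul, smul_eq_mul]
    rw [h2]
    unfold Matrix.mulVec dotProduct
    refine Finset.sum_congr rfl fun j _ => ?_
    show J i j * x j = x j * fderiv ℂ (f i) P (Pi.single j 1)
    rw [mul_comm]
    rfl
  rw [← he'] at hd
  have hF0 : F P = 0 := funext fun i => h0 i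
  refine ⟨hFc.localInverse hd (by norm_num), ?_, ?_, ?_⟩
  · have h1 := hFc.to_localInverse hd (by norm_num)
    rwa [hF0] at h1
  · have h1 := hFc.localInverse_apply_image hd (by norm_num)
    rwa [hF0] at h1
  · have h1 := (hFc.hasStrictFDerivAt' hd (by norm_num)).eventually_right_inverse
    rw [hF0] at h1
    filter_upwards [h1] with ζ hζ i
    exact congrFun hζ i

end Pool.Agent.T6.H30.RV
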