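import Mathlib
set_option autoImplicit false

/-!
Polynomials as smooth functions on `ℂ^ι`.
-/

namespace Pool.Agent.T6.H30.RV

open MvPolynomial

variable {ι : Type*} [Fintype ι] [DecidableEq ι] {K : Type*} [Field K] (σ : K →+* ℂ)

theorem contDiff_ev (p : MvPolynomial ι K) {k : WithTop ℕ∞} :
    ContDiff ℂ k fun x : ι → ℂ => eval₂ σ x p := by
  induction p using MvPolynomial.induction_on with
  | C a => simpa using contDiff_const
  | add p q hp hq =>
    simp only [eval₂_add]
    exact hp.add hq
  | mul_X p i hp =>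
    simp only [eval₂_mul, eval₂_X]
    exact hp.mul (contDiff_apply ℂ ℂ i)

theorem differentiable_ev (p : MvPolynomial ι K) :
    Differentiable ℂ fun x : ι → ℂ => eval₂ σ x p :=
  (contDiff_ev σ p (k := 1)).differentiable (by norm_num)

theorem fderiv_ev (p : MvPolynomial ι K) (x : ι → ℂ) (t : ι) :
    fderiv ℂ (fun x : ι → ℂ => eval₂ σ x p) x (Pi.single t 1) = eval₂ σ x (pderiv t p) := by
  induction p using MvPolynomial.induction_on with
  | C a => simp
  | add p q hp hq =>
    have e : (fun x : ι → ℂ => eval₂ σ x (p + q)) =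
        fun x : ι → ℂ => eval₂ σ x p + eval₂ σ x q := by
      funext x
      rw [eval₂_add]
    rw [e, fderiv_fun_add (differentiable_ev σ p x) (differentiable_ev σ q x), map_add,
      eval₂_add, add_apply, hp, hq]
  | mul_X p i hp =>
    have e : (fun x : ι → ℂ => eval₂ σ x (p * X i)) =
        fun x : ι → ℂ => eval₂ σ x p * x i := by
      funext x
      rw [eval₂_mul, eval₂_X]
    have h1 : DifferentiableAt ℂ (fun x : ι → ℂ => x i) x :=
      (contDiff_apply ℂ ℂ (n := 1) i).differentiable (by norm_num) x
    have h2 : fderiv ℂ (fun x : ι → ℂ => x i) x (Pi.single t 1) = if i = t then 1 else 0 := by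
      have h3 : HasFDerivAt (fun x : ι → ℂ => x i) (ContinuousLinearMap.proj i) x :=
        (ContinuousLinearMap.proj (R := ℂ) (φ := fun _ : ι => ℂ) i).hasFDerivAt
      rw [h3.fderiv]
      simp [Pi.single_apply]
    rw [e, fderiv_fun_mul (differentiable_ev σ p x) h1, add_apply, smul_apply, smul_apply, h2, hp,
      Derivation.leibniz, pderiv_X, smul_eq_mul, smul_eq_mul, smul_eq_mul, smul_eq_mul, eval₂_add,
      eval₂_mul, eval₂_mul, eval₂_X, Pi.single_apply]
    by_cases h : i = t
    · rw [if_pos h, if_pos h, eval₂_one]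
    · rw [if_neg h, if_neg h, eval₂_zero]

end Pool.Agent.T6.H30.RV
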