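import Pool.Agent.T6.H30.RV.Def
import Pool.Agent.T6.H30.RV.Poly
set_option autoImplicit false

/-!
Complex points of the varieties, and smooth families of them.
-/

namespace Pool.Agent.T6.H30.RV

open MvPolynomial

open Pool.Agent.TH826.MK

variable {K : Type*} [Field K] {c n s : ℕ} (S : Sys K c n) (lam : K) (κ : Fin s → K)
  (σ : K →+* ℂ)

/-- The complex point with the coordinates `y` satisfies the equations. -/
def Sys.Pt (y : Vr c n s → ℂ) : Prop := ∀ p ∈ S.eqns lam κ, eval₂ σ y p = 0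

variable {S lam κ σ}

/-- the evaluation at a point -/
noncomputable def Sys.Pt.ev {y : Vr c n s → ℂ} (h : S.Pt lam κ σ y) : S.Ring lam κ →+* ℂ :=
  Ideal.Quotient.lift _ (eval₂Hom σ y) (by
    intro a ha
    have h1 : Ideal.span (S.eqns lam κ) ≤ RingHom.ker (eval₂Hom σ y) :=
      Ideal.span_le.2 fun p hp => h p hp
    exact h1 ha)

theorem Sys.Pt.ev_quo {y : Vr c n s → ℂ} (h : S.Pt lam κ σ y) (p : MvPolynomial (Vr c n s) K) :
    h.ev (S.quo lam κ p) = eval₂ σ y p := rfl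

theorem Sys.Pt.ev_congr {y y' : Vr c n s → ℂ} (h : S.Pt lam κ σ y) (h' : S.Pt lam κ σ y')
    (e : y = y') : h.ev = h'.ev := by
  subst e
  rfl

/-- the point with the coordinates `x` on `W` and `z` -/
noncomputable def Sys.pt (S : Sys K c n) (lam : K) (σ : K →+* ℂ) (x : Fin c ⊕ Fin (n + 1) → ℂ)
    (z : Fin s → ℂ) : Vr c n s → ℂ :=
  Sum.elim x (Sum.elim z fun _ => (eval₂ σ x (S.phi lam) * ∏ l, z l)⁻¹)

theorem eval_inl (x : Fin c ⊕ Fin (n + 1) → ℂ) (z : Fin s → ℂ)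
    (p : MvPolynomial (Fin c ⊕ Fin (n + 1)) K) :
    eval₂ σ (S.pt lam σ x z) (rename Sum.inl p) = eval₂ σ x p := by
  rw [eval₂_rename]
  rfl

theorem eval_zv (x : Fin c ⊕ Fin (n + 1) → ℂ) (z : Fin s → ℂ) (l : Fin s) :
    eval₂ σ (S.pt lam σ x z) (zv K c n l) = z l := by
  unfold zv
  rw [eval₂_X]
  rfl

theorem eval_prod_zv (x : Fin c ⊕ Fin (n + 1) → ℂ) (z : Fin s → ℂ) :
    eval₂ σ (S.pt lam σ x z) (∏ l, zv K c n l) = ∏ l, z l := by
  have h := map_prod (eval₂Hom σ (S.pt lam σ x z)) (fun l => zv K c n l) Finset.univ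
  simp only [coe_eval₂Hom, eval_zv] at h
  exact h

theorem eval_den (x : Fin c ⊕ Fin (n + 1) → ℂ) (z : Fin s → ℂ) :
    eval₂ σ (S.pt lam σ x z) (S.den lam s) = eval₂ σ x (S.phi lam) * ∏ l, z l := by
  unfold Sys.den
  rw [eval₂_mul, eval_inl, eval_prod_zv]

theorem isPt {x : Fin c ⊕ Fin (n + 1) → ℂ} {z : Fin s → ℂ} (hG : ∀ l, eval₂ σ x (S.G l) = 0)
    (hz : ∏ l, (z l ^ 2 + σ (κ l) * z l + 1) = eval₂ σ x (S.phi lam) * ∏ l, z l)
    (h0 : eval₂ σ x (S.phi lam) * ∏ l, z l ≠ 0) : S.Pt lam κ σ (S.pt lam σ x z) := by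
  intro p hp
  rcases hp with ⟨l, rfl⟩ | hp | hp
  · show eval₂ σ (S.pt lam σ x z) (rename Sum.inl (S.G l)) = 0
    rw [eval_inl]
    exact hG l
  · rw [hp, eval₂_sub, eval_den, ← hz, sub_eq_zero]
    have h := map_prod (eval₂Hom σ (S.pt lam σ x z))
      (fun l => zv K c n l ^ 2 + C (κ l) * zv K c n l + 1) Finset.univ
    simp only [coe_eval₂Hom] at h
    rw [num, h]
    refine Finset.prod_congr rfl fun l _ => ?_
    rw [eval₂_add, eval₂_add, eval₂_mul, eval₂_pow, eval₂_C, eval_zv, eval₂_one]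
  · rw [Set.mem_singleton_iff.1 hp, eval₂_sub, eval₂_mul, eval_den, eval₂_X, eval₂_one,
      sub_eq_zero]
    exact inv_mul_cancel₀ h0

/-- the torus given by a smooth periodic family of points -/
noncomputable def mkTorus {d : ℕ} (y : (Fin d → ℝ) → (Vr c n s → ℂ)) (hy : ContDiff ℝ 2 y)
    (hper : ∀ θ i, y (θ + Pi.single i 1) = y θ) (h : ∀ θ, S.Pt lam κ σ (y θ)) :
    Torus (S.Ring lam κ) d where
  e θ := (h θ).ev
  smooth b := by
    obtain ⟨p, rfl⟩ := Ideal.Quotient.mk_surjective b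
    have h1 : ContDiff ℝ 2 fun x : Vr c n s → ℂ => eval₂ σ x p :=
      (contDiff_ev σ p (k := 2)).restrict_scalars ℝ
    exact h1.comp hy
  periodic θ i := Sys.Pt.ev_congr _ _ (hper θ i)

theorem mkTorus_e {d : ℕ} {y : (Fin d → ℝ) → (Vr c n s → ℂ)} (hy : ContDiff ℝ 2 y)
    (hper : ∀ θ i, y (θ + Pi.single i 1) = y θ) (h : ∀ θ, S.Pt lam κ σ (y θ)) (θ : Fin d → ℝ)
    (p : MvPolynomial (Vr c n s) K) :
    (mkTorus y hy hper h).e θ (S.quo lam κ p) = eval₂ σ (y θ) p := rfl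

end Pool.Agent.T6.H30.RV
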