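import Pool.Agent.T6.H30.RV.Def
import Pool.Agent.T6.H30.RV.Loc
import Pool.Agent.T6.H30.RV.Poly
set_option autoImplicit false

/-!
Local coordinates at a vertex, in which the function `g ∏ h_{j,i} ^ (w_{j,i} + 1)` is a monomial.
-/

namespace Pool.Agent.T6.H30.RV

open MvPolynomial Filter Topology

variable {K : Type*} [Field K] {c n : ℕ} (S : Sys K c n) (σ : K →+* ℂ)

/-- an `m`-th root of a smooth function at a point where it does not vanish -/
theorem exists_root {ι : Type*} [Fintype ι] {B : (ι → ℂ) → ℂ} {P : ι → ℂ}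
    (hB : ContDiffAt ℂ 2 B P) (h0 : B P ≠ 0) {m : ℕ} (hm : m ≠ 0) :
    ∃ β : (ι → ℂ) → ℂ, ContDiffAt ℂ 2 β P ∧ β P ≠ 0 ∧ ∀ᶠ x in 𝓝 P, β x ^ m = B x := by
  obtain ⟨b, hb⟩ := IsAlgClosed.exists_pow_nat_eq (B P) (Nat.pos_of_ne_zero hm)
  have hb0 : b ≠ 0 := by
    intro h
    rw [h, zero_pow hm] at hb
    exact h0 hb.symm
  have h1 : ContDiffAt ℂ 2 (fun x => B x / B P) P := hB.div_const _
  have h2 : B P / B P ∈ Complex.slitPlane := by
    rw [div_self h0]
    simp
  refine ⟨fun x => b * Complex.exp (Complex.log (B x / B P) / m), ?_, ?_, ?_⟩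
  · have h4 : ContDiffAt ℂ 2 (fun x => Complex.log (B x / B P)) P :=
      ContDiffAt.comp P (g := Complex.log) (Complex.contDiffAt_log h2) h1
    exact contDiffAt_const.mul (h4.div_const _).cexp
  · exact mul_ne_zero hb0 (Complex.exp_ne_zero _)
  · have h3 : ∀ᶠ x in 𝓝 P, B x ≠ 0 := hB.continuousAt.eventually_ne h0
    filter_upwards [h3] with x hx
    rw [mul_pow, hb, ← Complex.exp_nat_mul, mul_div_cancel₀ _ (Nat.cast_ne_zero.2 hm),
      Complex.exp_log (div_ne_zero hx h0), mul_div_cancel₀ _ h0]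

/-- The local coordinates `ζ_0, ..., ζ_n` at a vertex: the function `g ∏ h_{j,i} ^ (w_{j,i} + 1)`
is the monomial `ζ_0 ^ (w_{0,T_0+1} + 1) ... ζ_n ^ (w_{n,T_n+1} + 1)`, and the `h_{j,i}` are smooth
nonvanishing functions, multiplied by `ζ_j` if `i = T_j + 1`. -/
theorem exists_local {T : ∀ j, Fin (S.r j)} {P : Fin c ⊕ Fin (n + 1) → ℂ}
    (hV : S.Vertex σ T P) :
    ∃ (x : (Fin (n + 1) → ℂ) → (Fin c ⊕ Fin (n + 1) → ℂ))
      (U : (j : Fin (n + 1)) → Fin (S.r j + 1) → (Fin (n + 1) → ℂ) → ℂ),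
      ContDiffAt ℂ 2 x 0 ∧
      (∀ j i, ContDiffAt ℂ 2 (U j i) 0 ∧ U j i 0 ≠ 0) ∧
      ∀ᶠ ζ in 𝓝 (0 : Fin (n + 1) → ℂ), (∀ l, eval₂ σ (x ζ) (S.G l) = 0) ∧
        (∀ j i, eval₂ σ (x ζ) (S.h j i) = (if i = (T j).succ then ζ j else 1) * U j i ζ) ∧
        eval₂ σ (x ζ) S.g * (∏ j, ∏ i, eval₂ σ (x ζ) (S.h j i) ^ (S.w j i + 1)) =
          ∏ j, ζ j ^ (S.w j (T j).succ + 1) := by
  classical
  obtain ⟨hG, hh, hg, hdet⟩ := hV
  set m : ℕ := S.w 0 (T 0).succ + 1 with hm
  have hm0 : m ≠ 0 := Nat.succ_ne_zero _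
  -- the product of the other factors
  set B : (Fin c ⊕ Fin (n + 1) → ℂ) → ℂ := fun x => eval₂ σ x S.g *
    ∏ j, ∏ i, (if i = (T j).succ then 1 else eval₂ σ x (S.h j i) ^ (S.w j i + 1)) with hB
  have hBc : ContDiff ℂ 2 B := by
    refine (contDiff_ev σ S.g).mul (contDiff_prod fun j _ => contDiff_prod fun i _ => ?_)
    split_ifs
    · exact contDiff_const
    · exact (contDiff_ev σ (S.h j i)).pow _
  have hB0 : B P ≠ 0 := by
    refine mul_ne_zero hg (Finset.prod_ne_zero_iff.2 fun j _ => Finset.prod_ne_zero_iff.2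
      fun i _ => ?_)
    split_ifs with h
    · exact one_ne_zero
    · exact pow_ne_zero _ (mt (hh j i).1 h)
  obtain ⟨β, hβc, hβ0, hβ⟩ := exists_root hBc.contDiffAt hB0 hm0
  have hBprod : ∀ x, eval₂ σ x S.g * (∏ j, ∏ i, eval₂ σ x (S.h j i) ^ (S.w j i + 1)) =
      B x * ∏ j, eval₂ σ x (S.h j (T j).succ) ^ (S.w j (T j).succ + 1) := by
    intro x
    rw [hB]
    simp only [mul_assoc]
    congr 1
    rw [← Finset.prod_mul_distrib]
    refine Finset.prod_congr rfl fun j _ => ?_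
    have e : ∀ i, eval₂ σ x (S.h j i) ^ (S.w j i + 1) =
        (if i = (T j).succ then 1 else eval₂ σ x (S.h j i) ^ (S.w j i + 1)) *
        (if i = (T j).succ then eval₂ σ x (S.h j i) ^ (S.w j i + 1) else 1) := by
      intro i
      split_ifs <;> simp
    rw [Finset.prod_congr rfl fun i _ => e i, Finset.prod_mul_distrib, Finset.prod_ite_eq']
    simp
  -- the coordinate functions
  set f : Fin c ⊕ Fin (n + 1) → (Fin c ⊕ Fin (n + 1) → ℂ) → ℂ := Sum.elim
    (fun l x => eval₂ σ x (S.G l))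
    (fun j x => eval₂ σ x (S.h j (T j).succ) * (if j = 0 then β x else 1)) with hf
  have hfc : ∀ i, ContDiffAt ℂ 2 (f i) P := by
    rintro (l | j)
    · exact (contDiff_ev σ (S.G l)).contDiffAt
    · refine ((contDiff_ev σ (S.h j (T j).succ)).contDiffAt).mul ?_
      by_cases h : j = 0
      · simp only [if_pos h]; exact hβc
      · simp only [if_neg h]; exact contDiffAt_const
  have hf0 : ∀ i, f i P = 0 := by
    rintro (l | j)
    · exact hG l
    · show eval₂ σ P (S.h j (T j).succ) * _ = 0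
      rw [(hh j _).2 rfl, zero_mul]
  have hJ : (Matrix.of fun i t => fderiv ℂ (f i) P (Pi.single t 1)) =
      Matrix.of fun i t => (Sum.elim (fun _ => 1) (fun j => if j = 0 then β P else 1) i : ℂ) *
        (Matrix.of fun a t : Fin c ⊕ Fin (n + 1) =>
          eval₂ σ P (pderiv t (Sum.elim S.G (fun j => S.h j (T j).succ) a))) i t := by
    ext i t
    rcases i with l | j
    · simp only [Matrix.of_apply, Sum.elim_inl, one_mul]
      exact fderiv_ev σ (S.G l) P t
    · simp only [Matrix.of_apply, Sum.elim_inr]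
      have h1 : f (Sum.inr j) = fun x => eval₂ σ x (S.h j (T j).succ) *
        (if j = 0 then β x else 1) := rfl
      rw [h1]
      have h2 : DifferentiableAt ℂ (fun x => if j = 0 then β x else (1 : ℂ)) P := by
        by_cases h : j = 0
        · simp only [if_pos h]; exact hβc.differentiableAt (by norm_num)
        · simp only [if_neg h]; exact differentiableAt_const _
      rw [fderiv_fun_mul (differentiable_ev σ _ P) h2, add_apply, smul_apply, smul_apply,
        (hh j _).2 rfl, fderiv_ev, smul_eq_mul, smul_eq_mul, zero_mul, zero_add]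
  have hdet' : (Matrix.of fun i t => fderiv ℂ (f i) P (Pi.single t 1)).det ≠ 0 := by
    rw [hJ, Matrix.det_mul_column]
    refine mul_ne_zero (Finset.prod_ne_zero_iff.2 ?_) hdet
    rintro (l | j) _
    · exact one_ne_zero
    · simp only [Sum.elim_inr]
      split_ifs
      · exact hβ0
      · exact one_ne_zero
  obtain ⟨ψ, hψc, hψ0, hψ⟩ := exists_coord f P hfc hf0 hdet'
  -- the embedding of the `ζ`
  set em : (Fin (n + 1) → ℂ) → (Fin c ⊕ Fin (n + 1) → ℂ) := fun ζ => Sum.elim (fun _ => 0) ζ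
    with hem
  have hemc : ContDiff ℂ 2 em := by
    refine contDiff_pi.2 ?_
    rintro (l | j)
    · exact contDiff_const
    · exact contDiff_apply ℂ ℂ j
  have hem0 : em 0 = 0 := by
    funext i
    rcases i with l | j <;> rfl
  set x : (Fin (n + 1) → ℂ) → (Fin c ⊕ Fin (n + 1) → ℂ) := fun ζ => ψ (em ζ) with hx
  have hxc : ContDiffAt ℂ 2 x 0 := by
    refine ContDiffAt.comp (g := ψ) (0 : Fin (n + 1) → ℂ) ?_ hemc.contDiffAt
    rw [hem0]
    exact hψc
  have hx0 : x 0 = P := by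
    rw [hx]
    show ψ (em 0) = P
    rw [hem0, hψ0]
  have hxt : Tendsto x (𝓝 0) (𝓝 P) := by
    have := hxc.continuousAt.tendsto
    rwa [hx0] at this
  have hemt : Tendsto em (𝓝 0) (𝓝 0) := by
    have := hemc.continuous.continuousAt (x := (0 : Fin (n + 1) → ℂ)).tendsto
    rwa [hem0] at this
  refine ⟨x, fun j i ζ => if i = (T j).succ then (if j = 0 then (β (x ζ))⁻¹ else 1)
    else eval₂ σ (x ζ) (S.h j i), hxc, fun j i => ?_, ?_⟩
  · by_cases hi : i = (T j).succ
    · simp only [if_pos hi]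
      by_cases hj : j = 0
      · simp only [if_pos hj]
        have h1 : ContDiffAt ℂ 2 (fun ζ => β (x ζ)) 0 := by
          refine ContDiffAt.comp (g := β) (0 : Fin (n + 1) → ℂ) ?_ hxc
          rw [hx0]
          exact hβc
        refine ⟨h1.inv ?_, inv_ne_zero ?_⟩
        · rw [hx0]; exact hβ0
        · rw [hx0]; exact hβ0
      · simp only [if_neg hj]
        exact ⟨contDiffAt_const, one_ne_zero⟩
    · simp only [if_neg hi]
      refine ⟨((contDiff_ev σ (S.h j i)).contDiffAt).comp (0 : Fin (n + 1) → ℂ) hxc, ?_⟩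
      rw [hx0]
      exact mt (hh j i).1 hi
  · have h1 : ∀ᶠ ζ in 𝓝 (0 : Fin (n + 1) → ℂ), ∀ i, f i (ψ (em ζ)) = em ζ i := hemt.eventually hψ
    have h2 : ∀ᶠ ζ in 𝓝 (0 : Fin (n + 1) → ℂ), β (x ζ) ^ m = B (x ζ) := hxt.eventually hβ
    have h3 : ∀ᶠ ζ in 𝓝 (0 : Fin (n + 1) → ℂ), β (x ζ) ≠ 0 :=
      hxt.eventually (hβc.continuousAt.eventually_ne hβ0)
    filter_upwards [h1, h2, h3] with ζ e1 e2 e3
    have e4 : ∀ j, eval₂ σ (x ζ) (S.h j (T j).succ) * (if j = 0 then β (x ζ) else 1) = ζ j :=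
      fun j => e1 (Sum.inr j)
    refine ⟨fun l => e1 (Sum.inl l), fun j i => ?_, ?_⟩
    · by_cases hi : i = (T j).succ
      · subst hi
        simp only [if_true]
        rw [← e4 j]
        by_cases hj : j = 0
        · rw [if_pos hj, if_pos hj, mul_assoc, mul_inv_cancel₀ e3, mul_one]
        · rw [if_neg hj, if_neg hj, mul_one, mul_one]
      · rw [if_neg hi, if_neg hi, one_mul]
    · rw [hBprod, ← e2, Fin.prod_univ_succ, Fin.prod_univ_succ, ← e4 0, if_pos rfl, ← hm,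
        mul_pow, ← mul_assoc, mul_comm (β (x ζ) ^ m)]
      congr 1
      refine Finset.prod_congr rfl fun a _ => ?_
      rw [← e4 a.succ, if_neg (Fin.succ_ne_zero a), mul_one]

end Pool.Agent.T6.H30.RV
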