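import Pool.Agent.T6.H30.RV.Chi
import Pool.Agent.T6.H30.RV.Pts
import Pool.Agent.T6.H30.RV.Vert
set_option autoImplicit false

/-!
The torus at a vertex, and the regulators of the symbols over it.
-/

namespace Pool.Agent.T6.H30.RV

open MvPolynomial MeasureTheory Set Filter Topology

open Pool.Agent.TH826.MK

variable {K : Type*} [Field K] {c n s : ℕ}

theorem zz_per {χ : (Fin (s + n) → ℝ) → ℂ} {m : ℕ} {δ : ℝ} {τ : ℂ} (hχ : Per χ)
    (θ : Fin (s + n) → ℝ) (i : Fin (s + n)) :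
    zz χ m δ τ (θ + Pi.single i 1) = zz χ m δ τ θ := by
  funext j
  refine Fin.cases ?_ (fun a => ?_) j
  · rw [zz_zero, zz_zero, hχ]
  · rw [zz_succ, zz_succ]
    exact per_coord (f := fun t => circ δ (m * t)) (circ_mul_per δ m) θ i _

theorem map_div_units {A : Type*} [CommRing A] (f : A →+* ℂ) (u v : Aˣ) :
    f ((u / v : Aˣ) : A) = f u / f v := by
  have h : f v ≠ 0 := ((v.isUnit).map f).ne_zero
  rw [eq_div_iff h, ← map_mul, ← Units.val_mul, div_mul_cancel]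

/-- The torus at a vertex. -/
theorem exists_torus (S : Sys K c n) (κ : Fin s → K) (σ : K →+* ℂ) {T : ∀ j, Fin (S.r j)}
    {P : Fin c ⊕ Fin (n + 1) → ℂ} (hV : S.Vertex σ T P) {η : ℝ} (hη : 0 < η) (hη1 : η ≤ 1) :
    ∃ C : ℝ, ∀ lam : K, C ≤ ‖σ lam‖ → ∃ Γ : Torus (S.Ring lam κ) (s + n),
      (∀ θ a, Γ.e θ (S.cst lam κ a) = σ a) ∧ ∃ t : ℝ, 0 < t ∧
      t ≤ |Γ.reg (symb (S.ent lam κ T))| ∧
      ∀ k, k ≠ T → |Γ.reg (symb (S.ent lam κ k))| ≤ η * t := by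
  classical
  obtain ⟨x, U, hx, hU, hev⟩ := exists_local S σ hV
  set m : ℕ := S.w 0 (T 0).succ + 1 with hm
  have hm0 : m ≠ 0 := Nat.succ_ne_zero _
  set q : Fin n → ℕ := fun a => S.w a.succ (T a.succ).succ + 1 with hq
  set κ' : Fin s → ℂ := fun l => σ (κ l) with hκ'
  set ρ : ℝ := 4 * ∑ l, ‖κ' l‖ + 2 with hρd
  have hρκ : ∀ l, 4 * ‖κ' l‖ + 2 ≤ ρ := by
    intro l
    have := Finset.single_le_sum (f := fun l => ‖κ' l‖) (fun l _ => norm_nonneg _)
      (Finset.mem_univ l)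
    rw [hρd]
    linarith
  have hρ : 0 < ρ := by
    have : 0 ≤ ∑ l, ‖κ' l‖ := Finset.sum_nonneg fun l _ => norm_nonneg _
    rw [hρd]
    linarith
  set χ := chi κ' ρ m q with hχd
  have hχ : Good χ := good_chi hρκ
  have hχp : Per χ := chi_per
  set W : ∀ j, Fin (S.r j) → (Fin (n + 1) → ℂ) → ℂ := fun j k ζ => U j k.succ ζ / U j 0 ζ with hWd
  have hW : ∀ j k, ContDiffAt ℂ 2 (W j k) 0 ∧ W j k 0 ≠ 0 := fun j k =>
    ⟨(hU j k.succ).1.div (hU j 0).1 (hU j 0).2, div_ne_zero (hU j k.succ).2 (hU j 0).2⟩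
  have hev2 : ∀ᶠ ζ in 𝓝 (0 : Fin (n + 1) → ℂ), ContDiffAt ℂ 2 x ζ := hx.eventually (by decide)
  obtain ⟨r, hr0, hr⟩ := Metric.eventually_nhds_iff.1 (hev.and hev2)
  simp only [dist_zero_right] at hr
  set D : ℝ := 2 ^ s with hD
  have hD1 : 1 ≤ D := one_le_pow₀ (by norm_num)
  have hD0 : 0 < D := by linarith
  have hz0 : ∀ θ, ‖zone χ m θ‖ ≤ D := by
    intro θ
    refine (pi_norm_le_iff_of_nonneg hD0.le).2 fun j => ?_
    refine Fin.cases ?_ (fun a => ?_) j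
    · exact norm_chi_le hρκ hm0 θ
    · show ‖circ 1 _‖ ≤ D
      rw [norm_circ zero_le_one]
      exact hD1
  obtain ⟨δ0, hδ00, hδ0⟩ := pair_asymp W hW T m hρ hχ ⟨D, norm_chi_le hρκ hm0⟩ (η := η / 4)
    (by positivity)
  set r1 : ℝ := r / (2 * D) with hr1
  have hr10 : 0 < r1 := by positivity
  set δ : ℝ := min δ0 r1 with hδd
  have hδ : 0 < δ := lt_min hδ00 hr10
  obtain ⟨τ0, C0, hτ00, hC0, hτ0⟩ := hδ0 δ hδ (min_le_left _ _)
  set τ1 : ℝ := min (min τ0 r1) (Real.exp (-(4 * C0 / η + 1))) with hτ1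
  have hτ10 : 0 < τ1 := lt_min (lt_min hτ00 hr10) (Real.exp_pos _)
  set Q : ℕ := ∑ a, q a with hQ
  refine ⟨ρ ^ s / (δ ^ Q * τ1 ^ m), fun lam hlam => ?_⟩
  have hlam0 : 0 < ‖σ lam‖ := lt_of_lt_of_le (by positivity) hlam
  have hlam1 : σ lam ≠ 0 := norm_pos_iff.1 hlam0
  have hδc : (δ : ℂ) ≠ 0 := Complex.ofReal_ne_zero.2 hδ.ne'
  have hρc : (ρ : ℂ) ≠ 0 := Complex.ofReal_ne_zero.2 hρ.ne'
  obtain ⟨τ, hτm⟩ := IsAlgClosed.exists_pow_nat_eq ((ρ : ℂ) ^ s / (σ lam * (δ : ℂ) ^ Q))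
    (Nat.pos_of_ne_zero hm0)
  have hτeq : σ lam * (τ ^ m * (δ : ℂ) ^ Q) = (ρ : ℂ) ^ s := by
    rw [hτm]
    field_simp
  have hτne : τ ≠ 0 := by
    intro h
    rw [h, zero_pow hm0] at hτm
    exact div_ne_zero (pow_ne_zero _ hρc) (mul_ne_zero hlam1 (pow_ne_zero _ hδc)) hτm.symm
  have hτle : ‖τ‖ ≤ τ1 := by
    have h1 : ‖τ‖ ^ m ≤ τ1 ^ m := by
      rw [← norm_pow, hτm, norm_div, norm_mul, norm_pow, norm_pow, Complex.norm_real,
        Complex.norm_real, Real.norm_eq_abs, Real.norm_eq_abs, abs_of_pos hρ, abs_of_pos hδ,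
        div_le_iff₀ (by positivity)]
      rw [div_le_iff₀ (by positivity)] at hlam
      calc ρ ^ s ≤ ‖σ lam‖ * (δ ^ Q * τ1 ^ m) := hlam
        _ = _ := by ring
    exact (pow_le_pow_iff_left₀ (norm_nonneg _) hτ10.le hm0).1 h1
  have hτ0' : ‖τ‖ ≤ τ0 := hτle.trans ((min_le_left _ _).trans (min_le_left _ _))
  have hτr : ‖τ‖ ≤ r1 := hτle.trans ((min_le_left _ _).trans (min_le_right _ _))
  have hlog : Real.log ‖τ‖ ≤ -(4 * C0 / η + 1) := by
    have h1 := Real.log_le_log (norm_pos_iff.2 hτne) (hτle.trans (min_le_right _ _))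
    rwa [Real.log_exp] at h1
  set L : ℝ := |Real.log ‖τ‖| with hL
  have hq0 : 0 ≤ 4 * C0 / η := by positivity
  have hLe : Real.log ‖τ‖ = -L := by
    rw [hL, abs_of_nonpos (by linarith), neg_neg]
  have hL1 : 4 * C0 / η + 1 ≤ L := by linarith
  have hC0L : C0 ≤ η / 4 * L := by
    have h1 : 4 * C0 / η ≤ L := by linarith
    rw [div_le_iff₀ hη] at h1
    linarith
  have hL0 : 0 < L := by linarith
  -- the points
  have hzr : ∀ θ, ‖zz χ m δ τ θ‖ < r := by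
    intro θ
    have h1 : ‖zz χ m δ τ θ‖ ≤ ‖(Fin.cons τ fun _ => (δ : ℂ) : Fin (n + 1) → ℂ)‖ *
      ‖zone χ m θ‖ := norm_scl_le _ _ θ
    have h2 : ‖(Fin.cons τ fun _ => (δ : ℂ) : Fin (n + 1) → ℂ)‖ * ‖zone χ m θ‖ ≤ r1 * D :=
      mul_le_mul ((norm_scale_le hδ.le).trans (max_le hτr (min_le_right _ _))) (hz0 θ)
        (norm_nonneg _) hr10.le
    have h3 : r1 * D = r / 2 := by
      rw [hr1]
      field_simp
    rw [h3] at h2
    linarith
  set z : (Fin (s + n) → ℝ) → Fin s → ℂ := fun θ l => circ ρ (m * θ (Fin.castAdd n l)) with hz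
  have hzne : ∀ θ l, z θ l ≠ 0 := fun θ l => circ_ne_zero hρ _
  set y : (Fin (s + n) → ℝ) → (Vr c n s → ℂ) := fun θ => S.pt lam σ (x (zz χ m δ τ θ)) (z θ)
    with hy
  have hphi : ∀ θ, eval₂ σ (x (zz χ m δ τ θ)) (S.phi lam) =
      σ lam * ((zz χ m δ τ θ 0) ^ m * ∏ a : Fin n, (zz χ m δ τ θ a.succ) ^ q a) := by
    intro θ
    have h1 := (hr (hzr θ)).1.2.2
    rw [Fin.prod_univ_succ (f := fun j => zz χ m δ τ θ j ^ (S.w j (T j).succ + 1))] at h1
    unfold Sys.phi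
    rw [eval₂_mul, eval₂_mul, eval₂_C, mul_assoc]
    congr 1
    have h2 : eval₂ σ (x (zz χ m δ τ θ)) (∏ j, ∏ i, S.h j i ^ (S.w j i + 1)) =
        ∏ j, ∏ i, eval₂ σ (x (zz χ m δ τ θ)) (S.h j i) ^ (S.w j i + 1) := by
      rw [← coe_eval₂Hom, map_prod]
      refine Finset.prod_congr rfl fun j _ => ?_
      rw [map_prod]
      refine Finset.prod_congr rfl fun i _ => ?_
      rw [map_pow]
    rw [h2]
    exact h1
  have heq : ∀ θ, ∏ l, (z θ l ^ 2 + σ (κ l) * z θ l + 1) =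
      eval₂ σ (x (zz χ m δ τ θ)) (S.phi lam) * ∏ l, z θ l := by
    intro θ
    rw [hphi]
    exact chi_eq hρκ hm0 hρ hτeq θ
  have hne : ∀ θ, eval₂ σ (x (zz χ m δ τ θ)) (S.phi lam) * ∏ l, z θ l ≠ 0 := by
    intro θ
    rw [← heq]
    refine Finset.prod_ne_zero_iff.2 fun l _ => ?_
    have h1 : z θ l ^ 2 + σ (κ l) * z θ l + 1 = z θ l * (z θ l *
        vfac (κ' l) ρ m (θ (Fin.castAdd n l))) := by
      unfold vfac
      have h2 : circ ρ (m * θ (Fin.castAdd n l)) = z θ l := rfl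
      rw [h2]
      have := hzne θ l
      field_simp
      ring
    rw [h1]
    exact mul_ne_zero (hzne θ l) (mul_ne_zero (hzne θ l) (vfac_ne_zero (hρκ l) _))
  have hpt : ∀ θ, S.Pt lam κ σ (y θ) := fun θ => isPt (hr (hzr θ)).1.1 (heq θ) (hne θ)
  have hxs : ContDiff ℝ 2 fun θ => x (zz χ m δ τ θ) := by
    rw [contDiff_iff_contDiffAt]
    intro θ
    have h1 : ContDiffAt ℝ 2 x (zz χ m δ τ θ) := ((hr (hzr θ)).2).restrict_scalars ℝ
    exact ContDiffAt.comp (g := x) θ h1 (contDiff_zz hχ).contDiffAt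
  have hzs : ∀ l, ContDiff ℝ 2 fun θ => z θ l := fun l =>
    (good_circ hρ m (Fin.castAdd n l)).smooth
  have hys : ContDiff ℝ 2 y := by
    refine contDiff_pi.2 ?_
    rintro (i | l | u)
    · exact contDiff_pi.1 hxs i
    · exact hzs l
    · have h1 : ContDiff ℝ 2 fun θ => eval₂ σ (x (zz χ m δ τ θ)) (S.phi lam) :=
        ((contDiff_ev σ (S.phi lam) (k := 2)).restrict_scalars ℝ).comp hxs
      exact ContDiff.inv (h1.mul (contDiff_prod fun l _ => hzs l)) hne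
  have hyp : ∀ θ i, y (θ + Pi.single i 1) = y θ := by
    intro θ i
    have h1 : z (θ + Pi.single i 1) = z θ := by
      funext l
      exact per_coord (f := fun t => circ ρ (m * t)) (circ_mul_per ρ m) θ i _
    rw [hy]
    simp only [zz_per hχp, h1]
  set Γ : Torus (S.Ring lam κ) (s + n) := mkTorus y hys hyp hpt with hΓ
  have hΓq : ∀ θ p, Γ.e θ (S.quo lam κ p) = eval₂ σ (y θ) p := fun θ p =>
    mkTorus_e hys hyp hpt θ p
  have hΓh : ∀ θ j i, Γ.e θ (S.uh lam κ j i : S.Ring lam κ) =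
      (if i = (T j).succ then zz χ m δ τ θ j else 1) * U j i (zz χ m δ τ θ) := by
    intro θ j i
    have h1 : (S.uh lam κ j i : S.Ring lam κ) = S.quo lam κ (rename Sum.inl (S.h j i)) := rfl
    rw [h1, hΓq, hy]
    show eval₂ σ (S.pt lam σ (x (zz χ m δ τ θ)) (z θ)) (rename Sum.inl (S.h j i)) = _
    rw [eval_inl]
    exact (hr (hzr θ)).1.2.1 j i
  have hΓz : ∀ θ l, Γ.e θ (S.uz lam κ l : S.Ring lam κ) = z θ l := by
    intro θ l
    have h1 : (S.uz lam κ l : S.Ring lam κ) = S.quo lam κ (zv K c n l) := rfl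
    rw [h1, hΓq]
    exact eval_zv _ _ l
  have hΓd : ∀ θ j (k : Fin (S.r j)), Γ.e θ (S.uq lam κ j k : S.Ring lam κ) =
      (if k = T j then zz χ m δ τ θ j else 1) * W j k (zz χ m δ τ θ) := by
    intro θ j k
    unfold Sys.uq
    rw [map_div_units, hΓh, hΓh, if_neg (Fin.succ_ne_zero (T j)).symm, one_mul, hWd, mul_div_assoc]
    congr 1
    by_cases h : k = T j
    · rw [if_pos h, if_pos (by rw [h])]
    · rw [if_neg h, if_neg (fun h' => h (Fin.succ_injective _ h'))]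
  have hent : ∀ k : ∀ j, Fin (S.r j), (fun l => Γ.fn (S.ent lam κ k l : S.Ring lam κ)) =
      Fin.cons (fst χ m δ τ (W 0 (k 0)) (k 0 = T 0)) fun l θ =>
        mon s n m ρ δ (fun a => k a.succ = T a.succ) l θ *
          oth χ m δ τ (fun a => W a.succ (k a.succ)) l θ := by
    intro k
    funext l θ
    refine Fin.cases ?_ (fun l => ?_) l
    · rw [Fin.cons_zero]
      unfold Sys.ent fst Torus.fn
      rw [Fin.cons_zero]
      exact hΓd θ 0 (k 0)
    · rw [Fin.cons_succ]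
      unfold Sys.ent Torus.fn mon oth
      rw [Fin.cons_succ]
      refine Fin.addCases (fun l => ?_) (fun a => ?_) l
      · rw [Fin.append_left, Fin.append_left, Fin.append_left, mul_one]
        exact hΓz θ l
      · rw [Fin.append_right, Fin.append_right, Fin.append_right]
        rw [hΓd θ a.succ (k a.succ), zz_succ]
  have hreg : ∀ k : ∀ j, Fin (S.r j), |Γ.reg (symb (S.ent lam κ k)) -
      (if k = T then -L * (2 * Real.pi * m) ^ (s + n) else 0)| ≤ η / 2 * L := by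
    intro k
    rw [Γ.reg_symb]
    unfold Torus.pair
    rw [hent k, ← hLe]
    refine (hτ0 τ hτne hτ0' k).trans ?_
    rw [← hL]
    linarith
  refine ⟨Γ, fun θ a => ?_, L / 2, by positivity, ?_, fun k hk => ?_⟩
  · have h1 : S.cst lam κ a = S.quo lam κ (C a) := rfl
    rw [h1, hΓq, eval₂_C]
  · have h1 := hreg T
    rw [if_pos rfl] at h1
    have h2 : 1 ≤ (2 * Real.pi * m) ^ (s + n) := by
      refine one_le_pow₀ ?_
      have h3 : (1 : ℝ) ≤ m := by exact_mod_cast Nat.one_le_iff_ne_zero.2 hm0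
      have h4 := Real.pi_gt_three
      nlinarith
    rw [abs_le] at h1
    have h5 : L * 1 ≤ L * (2 * Real.pi * m) ^ (s + n) := mul_le_mul_of_nonneg_left h2 hL0.le
    have h6 : η / 2 * L ≤ 1 / 2 * L := mul_le_mul_of_nonneg_right (by linarith) hL0.le
    have h7 : Γ.reg (symb (S.ent lam κ T)) ≤ -(L / 2) := by linarith
    rw [abs_of_nonpos (by linarith)]
    linarith
  · have h1 := hreg k
    rw [if_neg hk, sub_zero] at h1
    linarith

end Pool.Agent.T6.H30.RV
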